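import Pool.Agent.Helper79.SQ.Root
import Pool.Agent.Helper25.RC.Defs

/-!
Sums of two squares divisible by `d` from a set of squares which is equidistributed modulo `d`.
-/

set_option autoImplicit false

namespace Pool.Agent.Helper79.SQ

open Finset Pool.Agent.Helper25.RC

theorem cong_eq (U : Finset ℕ) (d : ℕ) [NeZero d] : cong U d = ∑ a : ZMod d, zc U d a ^ 2 := by
  classical
  unfold cong
  rw [card_eq_sum_card_fiberwise (f := fun p : ℕ × ℕ => (p.1 : ZMod d)) (t := univ)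
    (fun _ _ => mem_univ _)]
  refine sum_congr rfl fun a _ => ?_
  have h1 : {p ∈ {p ∈ U ×ˢ U | p.1 ≡ p.2 [MOD d]} | ((p.1 : ℕ) : ZMod d) = a} =
      {u ∈ U | ((u : ℕ) : ZMod d) = a} ×ˢ {u ∈ U | ((u : ℕ) : ZMod d) = a} := by
    ext p
    simp only [mem_filter, mem_product, ← ZMod.natCast_eq_natCast_iff]
    constructor
    · rintro ⟨⟨⟨h1, h2⟩, h3⟩, h4⟩
      exact ⟨⟨h1, h4⟩, h2, h3 ▸ h4⟩
    · rintro ⟨⟨h1, h4⟩, h2, h5⟩
      exact ⟨⟨⟨h1, h2⟩, h4.trans h5.symm⟩, h4⟩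
  rw [h1, card_product, sq]
  rfl

theorem card_mult (x d : ℕ) (hd : 0 < d) (hdx : d ≤ x) :
    d * #{n ∈ range (2 * x) | d ∣ n} ≤ 3 * x := by
  have h1 : {n ∈ range (2 * x) | d ∣ n} ⊆ (range (2 * x / d + 1)).image fun k => d * k := by
    intro n hn
    rw [mem_filter, mem_range] at hn
    obtain ⟨hn1, k, rfl⟩ := hn
    rw [mem_image]
    refine ⟨k, ?_, rfl⟩
    rw [mem_range, Nat.lt_succ_iff, Nat.le_div_iff_mul_le hd]
    rw [mul_comm]
    exact hn1.le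
  have h2 : #{n ∈ range (2 * x) | d ∣ n} ≤ 2 * x / d + 1 := by
    refine (card_le_card h1).trans (card_image_le.trans ?_)
    rw [card_range]
  calc d * #{n ∈ range (2 * x) | d ∣ n} ≤ d * (2 * x / d + 1) := Nat.mul_le_mul_left _ h2
    _ = d * (2 * x / d) + d := by ring
    _ ≤ 2 * x + x := Nat.add_le_add (Nat.mul_div_le _ _) hdx
    _ = 3 * x := by ring

theorem core {A : Set ℕ} {U : Finset ℕ} {x d : ℕ} [NeZero d] (hx : 0 < x) (hdx : d ≤ x)
    (hUA : ∀ u ∈ U, u ^ 2 ∈ A ∧ u ^ 2 < x) (hphi : (15 : ℝ) / 16 * d ≤ d.totient)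
    (hV : (d : ℝ) * cong U d - (#U : ℝ) ^ 2 ≤ (#U : ℝ) ^ 2 / 16)
    (T : Finset (ZMod d)) (hT : ∀ i ∈ T, i * i = -1) :
    ∃ n : ℕ, n < 2 * x ∧ (#T : ℝ) * (#U : ℝ) ^ 2 ≤ 4 * x * rep A n := by
  classical
  have hd : 0 < d := NeZero.pos d
  have hdR : (0 : ℝ) < d := by exact_mod_cast hd
  set c : ℝ := (#U : ℝ) with hc
  -- equidistribution
  have hy : ∑ a : ZMod d, ((d : ℝ) * zc U d a - #U) ^ 2 ≤ d * (#U : ℝ) ^ 2 / 16 := by
    have h1 : ∀ a : ZMod d, ((d : ℝ) * zc U d a - #U) ^ 2 =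
        (d : ℝ) ^ 2 * (zc U d a : ℝ) ^ 2 - 2 * d * c * zc U d a + c ^ 2 := by
      intro a
      rw [← hc]
      ring
    have h2 : (∑ a : ZMod d, (zc U d a : ℝ)) = c := by
      rw [hc, ← sum_zc U d]
      push_cast
      rfl
    have h3 : (∑ a : ZMod d, (zc U d a : ℝ) ^ 2) = (cong U d : ℝ) := by
      rw [cong_eq]
      push_cast
      rfl
    rw [sum_congr rfl fun a _ => h1 a, sum_add_distrib, sum_sub_distrib, ← mul_sum, ← mul_sum, h2,
      h3, sum_const, card_univ, ZMod.card, nsmul_eq_mul, ← hc]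
    nlinarith
  have hφ : 15 * d ≤ 16 * d.totient := by
    have : (15 : ℝ) * d ≤ 16 * d.totient := by linarith
    exact_mod_cast this
  have hunit : ∀ i ∈ T, ∃ j : (ZMod d)ˣ, (j : ZMod d) = i := by
    intro i hi
    refine ⟨⟨i, -i, ?_, ?_⟩, rfl⟩
    · rw [mul_neg, hT i hi, neg_neg]
    · rw [neg_mul, hT i hi, neg_neg]
  -- the pairs
  set G : Finset (ℕ × ℕ) := {p ∈ U ×ˢ U | d ∣ p.1 ^ 2 + p.2 ^ 2} with hG
  set F : ZMod d × (ZMod d)ˣ → Finset (ℕ × ℕ) := fun q =>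
    {u ∈ U | ((u : ℕ) : ZMod d) = q.2} ×ˢ {u ∈ U | ((u : ℕ) : ZMod d) = q.1 * q.2} with hF
  have hsub : (T ×ˢ (univ : Finset (ZMod d)ˣ)).biUnion F ⊆ G := by
    intro p hp
    rw [mem_biUnion] at hp
    obtain ⟨⟨i, a⟩, hq, hp⟩ := hp
    rw [mem_product] at hq
    simp only [hF, mem_product, mem_filter] at hp
    obtain ⟨⟨h1, h2⟩, h3, h4⟩ := hp
    rw [hG, mem_filter, mem_product]
    refine ⟨⟨h1, h3⟩, ?_⟩
    rw [← ZMod.natCast_eq_zero_iff]
    push_cast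
    rw [h4, h2]
    have := hT i hq.1
    linear_combination (a : ZMod d) ^ 2 * this
  have hdis : ((T ×ˢ (univ : Finset (ZMod d)ˣ) : Finset _) : Set _).PairwiseDisjoint F := by
    rintro ⟨i, a⟩ _ ⟨i', a'⟩ _ hne
    rw [Function.onFun, Finset.disjoint_left]
    intro p hp hp'
    simp only [hF, mem_product, mem_filter] at hp hp'
    obtain ⟨⟨h1, h2⟩, h3, h4⟩ := hp
    obtain ⟨⟨h1', h2'⟩, h3', h4'⟩ := hp'
    have ha : a = a' := Units.ext (h2.symm.trans h2')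
    subst ha
    have hi : i = i' := a.mul_left_inj.1 (h4.symm.trans h4')
    exact hne (by rw [hi])
  have hcount : ∑ i ∈ T, ∑ a : (ZMod d)ˣ, zc U d a * zc U d (i * a) ≤ #G := by
    refine le_trans (le_of_eq ?_) (card_le_card hsub)
    rw [card_biUnion hdis, sum_product]
    refine sum_congr rfl fun i _ => sum_congr rfl fun a _ => ?_
    simp only [hF]
    rw [card_product]
    rfl
  have hlow : (#T : ℝ) * (3 / 4 * c ^ 2 / d) ≤ #G := by
    have h1 : ∀ i ∈ T, 3 / 4 * c ^ 2 / d ≤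
        ∑ a : (ZMod d)ˣ, (zc U d a : ℝ) * zc U d (i * a) := by
      intro i hi
      obtain ⟨j, rfl⟩ := hunit i hi
      exact pairs_line U d hy hφ j
    have h2 : (∑ i ∈ T, ∑ a : (ZMod d)ˣ, (zc U d a : ℝ) * zc U d (i * a)) ≤ #G := by
      exact_mod_cast hcount
    refine le_trans ?_ h2
    rw [← nsmul_eq_mul, ← sum_const]
    exact sum_le_sum h1
  -- the numbers
  have hG2 : #G = ∑ n ∈ {n ∈ range (2 * x) | d ∣ n}, #{p ∈ G | p.1 ^ 2 + p.2 ^ 2 = n} := by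
    refine card_eq_sum_card_fiberwise fun p hp => ?_
    rw [mem_coe, hG, mem_filter, mem_product] at hp
    rw [mem_coe, mem_filter, mem_range]
    refine ⟨?_, hp.2⟩
    have h1 := (hUA p.1 hp.1.1).2
    have h2 := (hUA p.2 hp.1.2).2
    omega
  have hrep : ∀ n, #{p ∈ G | p.1 ^ 2 + p.2 ^ 2 = n} ≤ rep A n := by
    intro n
    unfold rep
    refine card_le_card_of_injOn (fun p => (p.1 ^ 2, p.2 ^ 2)) ?_ ?_
    · intro p hp
      rw [mem_coe, mem_filter, hG, mem_filter, mem_product] at hp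
      rw [mem_coe, mem_filter, HasAntidiagonal.mem_antidiagonal]
      exact ⟨hp.2, (hUA _ hp.1.1.1).1, (hUA _ hp.1.1.2).1⟩
    · intro p _ q _ h
      simp only [Prod.mk.injEq] at h
      exact Prod.ext (Nat.pow_left_injective two_ne_zero h.1)
        (Nat.pow_left_injective two_ne_zero h.2)
  obtain ⟨n, hn, hmax⟩ := exists_max_image {n ∈ range (2 * x) | d ∣ n} (rep A)
    ⟨0, by rw [mem_filter, mem_range]; exact ⟨by omega, dvd_zero d⟩⟩
  refine ⟨n, (mem_range.1 (mem_filter.1 hn).1), ?_⟩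
  have hup : (#G : ℝ) ≤ #{n ∈ range (2 * x) | d ∣ n} * (rep A n : ℝ) := by
    have h1 : #G ≤ #{n ∈ range (2 * x) | d ∣ n} * rep A n := by
      rw [hG2, ← smul_eq_mul]
      exact sum_le_card_nsmul _ _ _ fun m hm => (hrep m).trans (hmax m hm)
    exact_mod_cast h1
  have hm : (d : ℝ) * #{n ∈ range (2 * x) | d ∣ n} ≤ 3 * x := by
    exact_mod_cast card_mult x d hd hdx
  have h1 : (#T : ℝ) * (3 / 4 * c ^ 2) ≤ 3 * x * rep A n := by
    have h2 := hlow.trans hup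
    have h3 : (#T : ℝ) * (3 / 4 * c ^ 2) = d * (#T * (3 / 4 * c ^ 2 / d)) := by
      field_simp
    rw [h3]
    calc d * (#T * (3 / 4 * c ^ 2 / d)) ≤ d * (#{n ∈ range (2 * x) | d ∣ n} * (rep A n : ℝ)) :=
          mul_le_mul_of_nonneg_left h2 hdR.le
      _ = (d * #{n ∈ range (2 * x) | d ∣ n}) * rep A n := by ring
      _ ≤ 3 * x * rep A n := mul_le_mul_of_nonneg_right hm (Nat.cast_nonneg _)
  linarith

end Pool.Agent.Helper79.SQ
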