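import Pool.Agent.Helper79.SQ.Root

/-!
The square roots of `-1` as a finite set, and the totient of a product of large primes.
-/

set_option autoImplicit false

namespace Pool.Agent.Helper79.SQ

open Finset

/-- ROOT -/
theorem root (P : Finset ℕ) (hP : ∀ p ∈ P, p.Prime ∧ p % 4 = 1) :
    ∃ T : Finset (ZMod (∏ p ∈ P, p)), 2 ^ #P ≤ #T ∧ ∀ i ∈ T, i * i = -1 := by
  classical
  have hd0 : ∏ p ∈ P, p ≠ 0 := Finset.prod_ne_zero_iff.2 fun q hq => (hP q hq).1.ne_zero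
  have : NeZero (∏ p ∈ P, p) := ⟨hd0⟩
  refine ⟨univ.filter fun i => i * i = -1, ?_, fun i hi => (mem_filter.1 hi).2⟩
  refine (card_rts P hP).trans (le_of_eq ?_)
  rw [← Set.ncard_coe_finset]
  congr 1
  ext i
  simp [rts, sq]

theorem tot_aux (P : Finset ℕ) (hP : ∀ p ∈ P, p.Prime) :
    (1 - ∑ p ∈ P, 1 / (p : ℝ)) * ((∏ p ∈ P, p : ℕ) : ℝ) ≤ ((∏ p ∈ P, p : ℕ).totient : ℝ) := by
  induction P using Finset.induction_on with
  | empty => simp
  | insert p P hp ih =>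
    have hpp := hP p (mem_insert_self p P)
    have hP' : ∀ q ∈ P, q.Prime := fun q hq => hP q (mem_insert_of_mem hq)
    have ih' := ih hP'
    rw [Finset.prod_insert hp, Finset.sum_insert hp]
    set d : ℕ := ∏ p ∈ P, p with hd
    set S : ℝ := ∑ p ∈ P, 1 / (p : ℝ) with hS
    have hS0 : 0 ≤ S := sum_nonneg fun q _ => by positivity
    have hcop : Nat.Coprime p d := Nat.Coprime.prod_right fun q hq =>
      (Nat.coprime_primes hpp (hP' q hq)).2 fun h => hp (h ▸ hq)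
    rw [Nat.totient_mul hcop, Nat.totient_prime hpp]
    have hp1 : (1 : ℝ) ≤ p := by exact_mod_cast hpp.one_le
    push_cast [hpp.one_le]
    have hd0 : (0 : ℝ) ≤ d := Nat.cast_nonneg _
    have h1 : (1 - (1 / (p : ℝ) + S)) * (p * d) = ((p - 1) - S * p) * d := by
      field_simp
      ring
    rw [h1]
    have h2 : ((p : ℝ) - 1) * ((1 - S) * d) ≤ (p - 1) * (d.totient : ℝ) :=
      mul_le_mul_of_nonneg_left ih' (by linarith)
    refine le_trans ?_ h2
    have h3 : 0 ≤ S * d := mul_nonneg hS0 hd0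
    nlinarith

/-- TOT -/
theorem tot (P : Finset ℕ) (hP : ∀ p ∈ P, p.Prime) (h : ∑ p ∈ P, 1 / (p : ℝ) ≤ 1 / 16) :
    (15 : ℝ) / 16 * ((∏ p ∈ P, p : ℕ) : ℝ) ≤ ((∏ p ∈ P, p : ℕ).totient : ℝ) := by
  refine le_trans ?_ (tot_aux P hP)
  have h0 : (0 : ℝ) ≤ ((∏ p ∈ P, p : ℕ) : ℝ) := Nat.cast_nonneg _
  nlinarith

end Pool.Agent.Helper79.SQ
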