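import Pool.Agent.Helper79.SQ.Choose
import Pool.Agent.Helper79.SQ.Core
import Pool.Agent.Helper79.SQ.Tot
import Pool.Agent.Helper25.SQ.Supply

/-!
Many representations as a sum of two squares from a dense set of squares.
-/

set_option autoImplicit false

namespace Pool.Agent.Helper79.SQ

open Finset Pool.Agent.Helper25.RC

theorem main_d : ∃ C : ℕ, 1 ≤ C ∧ ∀ (A : Set ℕ) (x M r K : ℕ) (U : Finset ℕ), 2 ≤ x →
    (∀ u ∈ U, u ^ 2 ∈ A ∧ u ^ 2 < x ∧ u < M) → M ≤ x → 1 ≤ r → U.Nonempty →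
    32 * r * M ≤ K * #U → ((C * (K * r)) ^ (3 * r)) ^ 2 ≤ M →
    ∃ n : ℕ, n < 2 * x ∧ (2 : ℝ) ^ r * (#U : ℝ) ^ 2 ≤ 4 * x * rep A n := by
  classical
  obtain ⟨C₀, hsup⟩ := Pool.Agent.Helper25.SQ.supply
  refine ⟨14 * C₀ + 1, by omega, ?_⟩
  intro A x M r K U hx hU hMx hr hne hK hQ
  obtain ⟨u₀, hu₀⟩ := hne
  have hM : 0 < M := by
    have := (hU u₀ hu₀).2.2
    omega
  have hU0 : 0 < #U := Finset.card_pos.2 ⟨u₀, hu₀⟩
  have hK0 : 0 < K := by
    rcases Nat.eq_zero_or_pos K with h | h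
    · rw [h, zero_mul] at hK
      have : 0 < 32 * r * M := by positivity
      omega
    · exact h
  set k : ℕ := 14 * K * r with hk
  have hk1 : 1 ≤ k := by
    rw [hk]
    exact Nat.mul_pos (by omega) hr
  obtain ⟨P, hPc, hP⟩ := hsup k hk1
  set Y : ℕ := (C₀ * k) ^ 3 with hY
  have hYQ : (Y ^ r) * (Y ^ r) ≤ M := by
    refine le_trans ?_ hQ
    rw [hY, ← pow_mul, ← sq]
    refine Nat.pow_le_pow_left (Nat.pow_le_pow_left ?_ _) _
    rw [hk]
    calc C₀ * (14 * K * r) = (14 * C₀) * (K * r) := by ring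
      _ ≤ (14 * C₀ + 1) * (K * r) := Nat.mul_le_mul_right _ (by omega)
  have hrk : r ≤ #P := by
    rw [hPc, hk]
    exact Nat.le_mul_of_pos_left _ (by omega)
  have hK' : 448 * r * M ≤ #P * #U := by
    rw [hPc, hk]
    calc 448 * r * M = 14 * (32 * r * M) := by ring
      _ ≤ 14 * (K * #U) := Nat.mul_le_mul_left _ hK
      _ ≤ 14 * K * r * #U := by
        have : 14 * (K * #U) * 1 ≤ 14 * (K * #U) * r := Nat.mul_le_mul_left _ hr
        calc 14 * (K * #U) = 14 * (K * #U) * 1 := by ring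
          _ ≤ 14 * (K * #U) * r := this
          _ = 14 * K * r * #U := by ring
  obtain ⟨P', hsub, hc, hV⟩ := choose_d (U := U) (M := M) (Q := Y ^ r) (Y := Y) (r := r) hM hYQ
    (fun u hu => mem_range.2 (hU u hu).2.2) P (fun p hp => (hP p hp).1)
    (fun p hp => (hP p hp).2.2.2) le_rfl (by omega) hrk hK'
  have hprime : ∀ p ∈ P', p.Prime := fun p hp => (hP p (hsub hp)).1
  have hd0 : 0 < ∏ p ∈ P', p := Finset.prod_pos fun p hp => (hprime p hp).pos
  have : NeZero (∏ p ∈ P', p) := ⟨hd0.ne'⟩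
  have hdQ : ∏ p ∈ P', p ≤ Y ^ r := by
    rw [← hc, ← Finset.prod_const]
    exact Finset.prod_le_prod' fun p hp => (hP p (hsub hp)).2.2.2
  have hdx : ∏ p ∈ P', p ≤ x := by
    refine (hdQ.trans ?_).trans hMx
    rcases Nat.eq_zero_or_pos (Y ^ r) with h | h
    · rw [h]; exact Nat.zero_le _
    · exact (Nat.le_mul_of_pos_left _ h).trans hYQ
  have hsum : ∑ p ∈ P', 1 / (p : ℝ) ≤ 1 / 16 := by
    have hkR : (0 : ℝ) < k := by exact_mod_cast hk1
    have h1 : ∀ p ∈ P', 1 / (p : ℝ) ≤ 1 / (16 * k : ℝ) := by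
      intro p hp
      have h2 : ((16 * k : ℕ) : ℝ) ≤ p := by exact_mod_cast (hP p (hsub hp)).2.2.1
      push_cast at h2
      exact one_div_le_one_div_of_le (by positivity) h2
    refine (sum_le_card_nsmul P' _ _ h1).trans ?_
    rw [hc, nsmul_eq_mul, mul_one_div, div_le_div_iff₀ (by positivity) (by norm_num)]
    have h3 : (r : ℝ) ≤ k := by
      rw [← hPc]
      exact_mod_cast hrk
    linarith
  obtain ⟨T, hT1, hT2⟩ := root P' fun p hp => ⟨hprime p hp, (hP p (hsub hp)).2.1⟩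
  obtain ⟨n, hn, h⟩ := core (A := A) (U := U) (x := x) (d := ∏ p ∈ P', p) (by omega) hdx
    (fun u hu => ⟨(hU u hu).1, (hU u hu).2.1⟩) (tot P' hprime hsum) hV T hT2
  refine ⟨n, hn, le_trans ?_ h⟩
  refine mul_le_mul_of_nonneg_right ?_ (sq_nonneg _)
  rw [← hc]
  exact_mod_cast hT1

end Pool.Agent.Helper79.SQ
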