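import Pool.Agent.Helper25.SQ.Final2

/-!
Elements near the values of a quadratic polynomial, in a set with few representations.
-/

set_option autoImplicit false

open Finset Filter

namespace Pool.Agent.Helper79.SQ

open Pool.Agent.Helper25.RC Pool.Agent.Helper5.SQ

/-- the translate `A - j` -/
def tr (A : Set ℕ) (j : ℤ) : Set ℕ := {m | ∃ n ∈ A, (n : ℤ) = m + j}

theorem rep_tr {A : Set ℕ} {g : ℝ} (hg : 0 ≤ g) (hA : ∀ n : ℕ, (rep A n : ℝ) ≤ g) (j : ℤ) (k : ℕ) :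
    (rep (tr A j) k : ℝ) ≤ g := by
  classical
  by_cases hk : 0 ≤ (k : ℤ) + 2 * j
  · obtain ⟨l, hl⟩ := Int.eq_ofNat_of_zero_le hk
    refine le_trans ?_ (hA l)
    have : rep (tr A j) k ≤ rep A l := by
      unfold rep
      refine card_le_card_of_injOn (fun p => (((p.1 : ℤ) + j).toNat, ((p.2 : ℤ) + j).toNat)) ?_ ?_
      · intro p hp
        rw [mem_coe, mem_filter, HasAntidiagonal.mem_antidiagonal] at hp ⊢
        obtain ⟨h1, ⟨n1, hn1, h2⟩, ⟨n2, hn2, h3⟩⟩ := hp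
        simp only [← h2, ← h3, Int.toNat_natCast]
        refine ⟨?_, hn1, hn2⟩
        omega
      · intro p hp q hq hpq
        rw [mem_coe, mem_filter, HasAntidiagonal.mem_antidiagonal] at hp hq
        obtain ⟨h1, ⟨n1, hn1, h2⟩, ⟨n2, hn2, h3⟩⟩ := hp
        obtain ⟨h1', ⟨n1', hn1', h2'⟩, ⟨n2', hn2', h3'⟩⟩ := hq
        simp only [← h2, ← h3, ← h2', ← h3', Int.toNat_natCast, Prod.mk.injEq] at hpq
        refine Prod.ext ?_ ?_
        · omega
        · omega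
    exact_mod_cast this
  · have : rep (tr A j) k = 0 := by
      unfold rep
      rw [card_eq_zero, filter_eq_empty_iff]
      intro p hp h
      rw [HasAntidiagonal.mem_antidiagonal] at hp
      obtain ⟨⟨n1, hn1, h2⟩, ⟨n2, hn2, h3⟩⟩ := h
      omega
    rw [this]
    simpa using hg

/-- the elements at the distance at most `H` of the values of a quadratic polynomial -/
theorem near_card {A : Set ℕ} {a b e : ℤ} {B : ℝ} {x y : ℕ} {H : ℝ} (hH : 0 ≤ H)
    (hxy : (x : ℝ) + H ≤ y) (hB : 0 ≤ B)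
    (hj : ∀ j : ℤ, (#(below (tr A j ∩ quad a b e) y) : ℝ) ≤ B) :
    (#(below (A ∩ {n | ∃ u : ℤ, |(n : ℝ) - (a * u ^ 2 + b * u + e : ℤ)| ≤ H}) x) : ℝ) ≤
      H + 1 + (2 * H + 1) * B := by
  classical
  obtain ⟨h, hh⟩ : ∃ h : ℕ, h = ⌊H⌋₊ := ⟨_, rfl⟩
  have hhH : (h : ℝ) ≤ H := by rw [hh]; exact Nat.floor_le hH
  have hsub : below (A ∩ {n | ∃ u : ℤ, |(n : ℝ) - (a * u ^ 2 + b * u + e : ℤ)| ≤ H}) x ⊆
      range (h + 1) ∪ (Icc (-(h : ℤ)) h).biUnion
        (fun j => (below (tr A j ∩ quad a b e) y).image (fun m : ℕ => ((m : ℤ) + j).toNat)) := by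
    intro n hn
    obtain ⟨hnx, hnA, u, hu⟩ := mem_below.1 hn
    rw [mem_union]
    by_cases hnh : n < h + 1
    · exact Or.inl (mem_range.2 hnh)
    · right
      obtain ⟨j, hjd⟩ : ∃ j : ℤ, j = (n : ℤ) - (a * u ^ 2 + b * u + e) := ⟨_, rfl⟩
      have hj1 : |(j : ℝ)| ≤ H := by
        rw [hjd]
        push_cast at hu ⊢
        exact hu
      have hj2 : |j| ≤ (h : ℤ) := by
        have h1 : ((|j|.toNat : ℕ) : ℝ) ≤ H := by
          have h2 : ((|j|.toNat : ℕ) : ℤ) = |j| := Int.toNat_of_nonneg (abs_nonneg j)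
          have h3 : ((|j|.toNat : ℕ) : ℝ) = |(j : ℝ)| := by
            rw [← Int.cast_abs, ← h2]
            push_cast
            rfl
          rw [h3]
          exact hj1
        have h2 : |j|.toNat ≤ h := by rw [hh]; exact Nat.le_floor h1
        omega
      obtain ⟨hj3, hj4⟩ := abs_le.1 hj2
      rw [mem_biUnion]
      refine ⟨j, mem_Icc.2 ⟨hj3, hj4⟩, mem_image.2 ⟨((n : ℤ) - j).toNat, ?_, ?_⟩⟩
      · rw [mem_below]
        have h1 : ((((n : ℤ) - j).toNat : ℕ) : ℤ) = (n : ℤ) - j := Int.toNat_of_nonneg (by omega)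
        refine ⟨?_, ⟨n, hnA, by omega⟩, ⟨u, ?_⟩⟩
        · have h2 : ((n : ℤ) - j).toNat < x + h := by omega
          have h3 : x + h ≤ y := by
            have : ((x + h : ℕ) : ℝ) ≤ y := by push_cast; linarith
            exact_mod_cast this
          omega
        · rw [h1, hjd]
          ring
      · omega
  have h1 : (#(below (A ∩ {n | ∃ u : ℤ, |(n : ℝ) - (a * u ^ 2 + b * u + e : ℤ)| ≤ H}) x) : ℝ) ≤
      (h + 1 : ℕ) + ∑ j ∈ Icc (-(h : ℤ)) h, (#(below (tr A j ∩ quad a b e) y) : ℝ) := by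
    have h2 := (card_le_card hsub).trans (card_union_le _ _)
    have h3 := (card_biUnion_le (s := Icc (-(h : ℤ)) h)
      (t := fun j => (below (tr A j ∩ quad a b e) y).image (fun m : ℕ => ((m : ℤ) + j).toNat)))
    rw [card_range] at h2
    have h4 : ∑ j ∈ Icc (-(h : ℤ)) h,
        #((below (tr A j ∩ quad a b e) y).image (fun m : ℕ => ((m : ℤ) + j).toNat)) ≤
        ∑ j ∈ Icc (-(h : ℤ)) h, #(below (tr A j ∩ quad a b e) y) :=
      sum_le_sum fun j _ => card_image_le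
    have h5 := h2.trans (Nat.add_le_add_left (h3.trans h4) _)
    exact_mod_cast h5
  refine h1.trans ?_
  have h2 : ∑ j ∈ Icc (-(h : ℤ)) h, (#(below (tr A j ∩ quad a b e) y) : ℝ) ≤ (2 * h + 1) * B := by
    refine (sum_le_sum fun j _ => hj j).trans (le_of_eq ?_)
    rw [sum_const, Int.card_Icc, nsmul_eq_mul]
    congr 1
    have : ((h : ℤ) + 1 - -(h : ℤ)).toNat = 2 * h + 1 := by omega
    rw [this]
    push_cast
    ring
  push_cast
  have h3 : (2 * (h : ℝ) + 1) * B ≤ (2 * H + 1) * B := by gcongr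
  linarith

/-- A set with bounded representation function has few elements near the values of a quadratic
polynomial. -/
theorem near_values : ∃ c : ℝ, 0 < c ∧ ∀ (g : ℝ) (a b e : ℤ), 0 < a →
    ∃ C : ℝ, ∀ A : Set ℕ, (∀ n : ℕ, (rep A n : ℝ) ≤ g) → ∀ x : ℕ, 2 ≤ x →
      (#(below (A ∩ {n | ∃ u : ℤ, |(n : ℝ) - (a * u ^ 2 + b * u + e : ℤ)| ≤
        Real.exp (c * √(Real.log x))}) x) : ℝ) ≤ C * √x * Real.exp (-(c * √(Real.log x))) := by
  obtain ⟨c0, hc0, h0⟩ := Pool.Agent.Helper25.SQ.few_values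
  obtain ⟨c, hc⟩ : ∃ c : ℝ, c = min (c0 / 2) (1 / 4) := ⟨_, rfl⟩
  have hc1 : 0 < c := by rw [hc]; positivity
  have hc2 : 2 * c ≤ c0 := by
    have : c ≤ c0 / 2 := by rw [hc]; exact min_le_left _ _
    linarith
  have hc3 : c ≤ 1 / 4 := by rw [hc]; exact min_le_right _ _
  refine ⟨c, hc1, fun g a b e ha => ?_⟩
  obtain ⟨C0, hC0⟩ := h0 g a b e ha
  obtain ⟨C1, hC1⟩ : ∃ C1 : ℝ, C1 = max C0 0 := ⟨_, rfl⟩
  have hC10 : 0 ≤ C1 := by rw [hC1]; exact le_max_right _ _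
  have hC01 : C0 ≤ C1 := by rw [hC1]; exact le_max_left _ _
  refine ⟨2 * Real.exp (2 * c ^ 2) + 6 * C1, fun A hA x hx => ?_⟩
  have hg : 0 ≤ g := (Nat.cast_nonneg _).trans (hA 0)
  have hx2 : (2 : ℝ) ≤ x := by exact_mod_cast hx
  have hx0 : (0 : ℝ) < x := by linarith
  obtain ⟨s, hs⟩ : ∃ s, s = √(Real.log x) := ⟨_, rfl⟩
  have hs0 : 0 ≤ s := by rw [hs]; exact Real.sqrt_nonneg _
  have hss : s ^ 2 = Real.log x := by rw [hs]; exact Real.sq_sqrt (Real.log_natCast_nonneg x)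
  rw [← hs]
  obtain ⟨H, hH⟩ : ∃ H, H = Real.exp (c * s) := ⟨_, rfl⟩
  have hH1 : 1 ≤ H := by rw [hH]; exact Real.one_le_exp (by positivity)
  rw [← hH]
  have hs1 : 1 / 4 ≤ s := by
    have h1 : Real.log 2 ≤ Real.log x := Real.log_le_log (by norm_num) hx2
    have h2 := Real.log_two_gt_d9
    nlinarith
  have hHx : H ≤ x := by
    rw [hH]
    calc Real.exp (c * s) ≤ Real.exp (s ^ 2) := by
          refine Real.exp_le_exp.2 ?_
          nlinarith
      _ = x := by rw [hss, Real.exp_log hx0]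
  have hsx : √(x : ℝ) = Real.exp (s ^ 2 / 2) := by
    rw [hss, Real.sqrt_eq_rpow, Real.rpow_def_of_pos hx0]
    congr 1
    ring
  have hsx0 : 0 < √(x : ℝ) := Real.sqrt_pos.2 hx0
  have hj : ∀ j : ℤ, (#(below (tr A j ∩ quad a b e) (2 * x)) : ℝ) ≤
      2 * C1 * √(x : ℝ) * Real.exp (-(c0 * s)) := by
    intro j
    have h1 := hC0 (tr A j) (rep_tr hg hA j) (2 * x) (by omega)
    have h2 : √((2 * x : ℕ) : ℝ) ≤ 2 * √(x : ℝ) := by
      push_cast
      rw [Real.sqrt_mul (by norm_num)]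
      have : √(2 : ℝ) ≤ 2 := by
        rw [Real.sqrt_le_iff]
        norm_num
      gcongr
    have h3 : s ≤ √(Real.log ((2 * x : ℕ) : ℝ)) := by
      rw [hs]
      refine Real.sqrt_le_sqrt (Real.log_le_log hx0 ?_)
      push_cast
      linarith
    have h4 : Real.exp (-(c0 * √(Real.log ((2 * x : ℕ) : ℝ)))) ≤ Real.exp (-(c0 * s)) := by
      refine Real.exp_le_exp.2 ?_
      nlinarith
    refine h1.trans ?_
    calc C0 * √((2 * x : ℕ) : ℝ) * Real.exp (-(c0 * √(Real.log ((2 * x : ℕ) : ℝ))))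
        ≤ C1 * (2 * √(x : ℝ)) * Real.exp (-(c0 * s)) := by gcongr
      _ = _ := by ring
  have hmain := near_card (A := A) (a := a) (b := b) (e := e)
    (B := 2 * C1 * √(x : ℝ) * Real.exp (-(c0 * s))) (x := x) (y := 2 * x) (H := H) (by linarith)
    (by push_cast; linarith) (by positivity) hj
  refine hmain.trans ?_
  have h1 : H ≤ Real.exp (2 * c ^ 2) * √(x : ℝ) * Real.exp (-(c * s)) := by
    rw [hH, hsx, ← Real.exp_add, ← Real.exp_add]
    refine Real.exp_le_exp.2 ?_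
    nlinarith [sq_nonneg (s - 2 * c)]
  have h2 : H * Real.exp (-(c0 * s)) ≤ Real.exp (-(c * s)) := by
    rw [hH, ← Real.exp_add]
    refine Real.exp_le_exp.2 ?_
    nlinarith
  have h3 : (2 * H + 1) * (2 * C1 * √(x : ℝ) * Real.exp (-(c0 * s))) ≤
      6 * C1 * √(x : ℝ) * Real.exp (-(c * s)) := by
    calc (2 * H + 1) * (2 * C1 * √(x : ℝ) * Real.exp (-(c0 * s)))
        ≤ (3 * H) * (2 * C1 * √(x : ℝ) * Real.exp (-(c0 * s))) := by
          gcongr
          linarith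
      _ = 6 * C1 * √(x : ℝ) * (H * Real.exp (-(c0 * s))) := by ring
      _ ≤ _ := by gcongr
  have h4 : H + 1 ≤ 2 * (Real.exp (2 * c ^ 2) * √(x : ℝ) * Real.exp (-(c * s))) := by linarith
  calc H + 1 + (2 * H + 1) * (2 * C1 * √(x : ℝ) * Real.exp (-(c0 * s)))
      ≤ 2 * (Real.exp (2 * c ^ 2) * √(x : ℝ) * Real.exp (-(c * s))) +
        6 * C1 * √(x : ℝ) * Real.exp (-(c * s)) := add_le_add h4 h3
    _ = _ := by ring

end Pool.Agent.Helper79.SQ
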