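import Pool.Agent.Helper25.RC.LS

/-!
A product of primes modulo which a given set is equidistributed in mean square.
-/

set_option autoImplicit false

namespace Pool.Agent.Helper79.SQ

open Finset Pool.Agent.Helper25.RC
open Pool.Agent.Helper38.RC (units expSum trig large_sieve farey_eq farey_sep)

/-- the sum over the fractions with denominator `e` -/
noncomputable def Gs (U : Finset ℕ) (e : ℕ) : ℝ := ∑ b ∈ units e, ‖expSum U ((b : ℝ) / e)‖ ^ 2

theorem Gs_nonneg (U : Finset ℕ) (e : ℕ) : 0 ≤ Gs U e := sum_nonneg fun _ _ => sq_nonneg _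

theorem Gs_one (U : Finset ℕ) : Gs U 1 = (#U : ℝ) ^ 2 := by
  have h1 : units 1 = {0} := by
    ext a
    rw [units, mem_filter, mem_range, mem_singleton]
    constructor
    · rintro ⟨h, _⟩; omega
    · rintro rfl; exact ⟨one_pos, by simp⟩
  unfold Gs
  rw [h1, Finset.sum_singleton]
  unfold expSum
  simp

theorem expSum_eq_trig (U : Finset ℕ) {M : ℕ} (hU : U ⊆ range M) (u : ℝ) :
    expSum U u = trig (fun n => if n ∈ U then 1 else 0) M u := by
  classical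
  unfold expSum trig
  have h1 : ∀ n ∈ range M, (((if n ∈ U then (1 : ℝ) else 0 : ℝ)) : ℂ) *
      Complex.exp (((2 * Real.pi * (n : ℝ) * u : ℝ) : ℂ) * Complex.I) =
      if n ∈ U then Complex.exp (((2 * Real.pi * (n : ℝ) * u : ℝ) : ℂ) * Complex.I) else 0 := by
    intro n _
    split_ifs <;> simp
  rw [sum_congr rfl h1, ← sum_filter]
  congr 1
  ext n
  rw [mem_filter]
  exact ⟨fun h => ⟨hU h, h⟩, fun h => h.2⟩

/-- the classical large sieve -/
theorem classical_sieve (U : Finset ℕ) {M Q : ℕ} (hM : 0 < M) (hQ : Q * Q ≤ M)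
    (hU : U ⊆ range M) : ∑ q ∈ Icc 1 Q, Gs U q ≤ 28 * M * #U := by
  classical
  unfold Gs
  rw [Finset.sum_sigma']
  set D : Finset ((_ : ℕ) × ℕ) := (Icc 1 Q).sigma (fun q => units q) with hD
  have hD' : ∀ p ∈ D, (1 ≤ p.1 ∧ p.1 ≤ Q) ∧ (p.2 < p.1 ∧ Nat.Coprime p.2 p.1) := by
    intro p hp
    rw [hD, mem_sigma, mem_Icc, units, mem_filter, mem_range] at hp
    exact hp
  have hinj : Set.InjOn (fun p : (_ : ℕ) × ℕ => (p.2 : ℝ) / p.1) D := by
    rintro ⟨q, a⟩ hp ⟨q', a'⟩ hp' h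
    obtain ⟨⟨h1, h2⟩, h3, h4⟩ := hD' _ (mem_coe.1 hp)
    obtain ⟨⟨h1', h2'⟩, h3', h4'⟩ := hD' _ (mem_coe.1 hp')
    obtain ⟨h5, h6⟩ := farey_eq (show 0 < q from h1) (show 0 < q' from h1') h4 h4' h
    simp only at h5 h6
    subst h5
    subst h6
    rfl
  rw [← Finset.sum_image (g := fun p : (_ : ℕ) × ℕ => (p.2 : ℝ) / p.1)
    (f := fun t => ‖expSum U t‖ ^ 2) hinj]
  have hMR : (1 : ℝ) ≤ M := by exact_mod_cast hM
  have key := large_sieve (fun n => if n ∈ U then (1 : ℝ) else 0) M hM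
    (δ := 1 / (M : ℝ)) (by positivity) ((div_le_one (by linarith)).2 hMR)
    (D.image fun p : (_ : ℕ) × ℕ => (p.2 : ℝ) / p.1) ?_ ?_
  · have h1 : ∀ t ∈ D.image (fun p : (_ : ℕ) × ℕ => (p.2 : ℝ) / p.1),
        ‖expSum U t‖ ^ 2 = ‖trig (fun n => if n ∈ U then (1 : ℝ) else 0) M t‖ ^ 2 := by
      intro t _
      rw [expSum_eq_trig U hU]
    rw [sum_congr rfl h1]
    refine key.trans ?_
    have h2 : (∑ n ∈ range M, (if n ∈ U then (1 : ℝ) else 0) ^ 2) = #U := by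
      have h3 : ∀ n ∈ range M, (if n ∈ U then (1 : ℝ) else 0) ^ 2 = if n ∈ U then 1 else 0 := by
        intro n _
        split_ifs <;> simp
      rw [sum_congr rfl h3, ← sum_filter, sum_const, nsmul_eq_mul, mul_one]
      congr 2
      ext n
      rw [mem_filter]
      exact ⟨fun h => h.2, fun h => ⟨hU h, h⟩⟩
    rw [h2]
    have hpi := Real.pi_lt_d2
    have h4 : (2 / (1 / (M : ℝ)) + 8 * Real.pi * M) ≤ 28 * M := by
      rw [div_div_eq_mul_div, div_one]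
      nlinarith
    exact mul_le_mul_of_nonneg_right h4 (Nat.cast_nonneg _)
  · intro t ht
    obtain ⟨p, hp, rfl⟩ := mem_image.1 ht
    obtain ⟨⟨h1, h2⟩, h3, h4⟩ := hD' _ hp
    have h5 : (p.2 : ℝ) ≤ p.1 := by exact_mod_cast h3.le
    exact ⟨by positivity, (div_le_one (by exact_mod_cast h1)).2 h5⟩
  · intro s hs t ht hne
    obtain ⟨p, hp, rfl⟩ := mem_image.1 hs
    obtain ⟨p', hp', rfl⟩ := mem_image.1 ht
    obtain ⟨⟨h1, h2⟩, h3, h4⟩ := hD' _ hp
    obtain ⟨⟨h1', h2'⟩, h3', h4'⟩ := hD' _ hp'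
    exact farey_sep h1 h1' ((Nat.mul_le_mul h2 h2').trans hQ) hne

/-- the variance modulo `d` -/
theorem var_eq (U : Finset ℕ) {d : ℕ} (hd : 0 < d) :
    (d : ℝ) * cong U d - (#U : ℝ) ^ 2 = ∑ e ∈ d.divisors.erase 1, Gs U e := by
  classical
  have h1 := Pool.Agent.Helper38.RC.sum_norm_sq_expSum U (q := d) hd
  rw [sum_fractions hd fun t => ‖expSum U t‖ ^ 2] at h1
  have h2 : (1 : ℕ) ∈ d.divisors := Nat.one_mem_divisors.2 hd.ne'
  rw [← h1]
  have h3 := Finset.add_sum_erase d.divisors (fun e => Gs U e) h2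
  have h4 : ∑ e ∈ d.divisors, ∑ b ∈ units e, ‖expSum U ((b : ℝ) / e)‖ ^ 2 =
      ∑ e ∈ d.divisors, Gs U e := rfl
  rw [h4, ← h3, Gs_one]
  ring

/-- the choice of `d`: the average over all subsets with `r` elements -/
theorem choose_d {U : Finset ℕ} {M Q Y r : ℕ} (hM : 0 < M) (hQ : Q * Q ≤ M) (hU : U ⊆ range M)
    (P : Finset ℕ) (hP : ∀ p ∈ P, p.Prime) (hPY : ∀ p ∈ P, p ≤ Y) (hYr : Y ^ r ≤ Q)
    (hr : 0 < r) (hrk : r ≤ #P) (hK : 448 * r * M ≤ #P * #U) :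
    ∃ P' ⊆ P, #P' = r ∧ ((∏ p ∈ P', p : ℕ) : ℝ) * cong U (∏ p ∈ P', p) - (#U : ℝ) ^ 2 ≤
      (#U : ℝ) ^ 2 / 16 := by
  classical
  obtain ⟨r', rfl⟩ : ∃ r', r = r' + 1 := ⟨r - 1, by omega⟩
  set k : ℕ := #P with hk
  obtain ⟨k', hk'⟩ : ∃ k', k = k' + 1 := ⟨k - 1, by omega⟩
  have hprod : ∀ P' ∈ powersetCard (r' + 1) P, 0 < ∏ p ∈ P', p ∧ ∏ p ∈ P', p ≤ Q := by
    intro P' hP'
    rw [mem_powersetCard] at hP'
    refine ⟨Finset.prod_pos fun p hp => (hP p (hP'.1 hp)).pos, ?_⟩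
    refine le_trans ?_ hYr
    rw [← hP'.2, ← Finset.prod_const]
    exact Finset.prod_le_prod' fun p hp => hPY p (hP'.1 hp)
  -- the average
  have havg : ∑ P' ∈ powersetCard (r' + 1) P, (((∏ p ∈ P', p : ℕ) : ℝ) * cong U (∏ p ∈ P', p) -
      (#U : ℝ) ^ 2) ≤ (k'.choose r' : ℝ) * (28 * M * #U) := by
    have h1 : ∀ P' ∈ powersetCard (r' + 1) P, ((∏ p ∈ P', p : ℕ) : ℝ) * cong U (∏ p ∈ P', p) -
        (#U : ℝ) ^ 2 ≤ ∑ e ∈ Icc 1 Q, if e.minFac ∈ P' then Gs U e else 0 := by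
      intro P' hP'
      obtain ⟨hd0, hdQ⟩ := hprod P' hP'
      rw [mem_powersetCard] at hP'
      rw [var_eq U hd0, ← sum_filter]
      refine sum_le_sum_of_subset_of_nonneg ?_ fun e _ _ => Gs_nonneg _ _
      intro e he
      rw [mem_erase, Nat.mem_divisors] at he
      obtain ⟨h3, h4, h5⟩ := he
      rw [mem_filter, mem_Icc]
      refine ⟨⟨Nat.pos_of_dvd_of_pos h4 hd0, (Nat.le_of_dvd hd0 h4).trans hdQ⟩, ?_⟩
      have hp := Nat.minFac_prime h3
      have h6 : e.minFac ∣ ∏ p ∈ P', p := (Nat.minFac_dvd e).trans h4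
      rw [Prime.dvd_finsetProd_iff hp.prime] at h6
      obtain ⟨q, hq, hpq⟩ := h6
      rwa [(Nat.prime_dvd_prime_iff_eq hp (hP q (hP'.1 hq))).1 hpq]
    refine (sum_le_sum h1).trans ?_
    rw [sum_comm]
    have h2 : ∀ e ∈ Icc 1 Q, (∑ P' ∈ powersetCard (r' + 1) P,
        if e.minFac ∈ P' then Gs U e else 0) ≤ (k'.choose r' : ℝ) * Gs U e := by
      intro e _
      rw [← sum_filter, sum_const, nsmul_eq_mul]
      refine mul_le_mul_of_nonneg_right ?_ (Gs_nonneg _ _)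
      have h3 : #{P' ∈ powersetCard (r' + 1) P | e.minFac ∈ P'} ≤ k'.choose r' := by
        by_cases hm : e.minFac ∈ P
        · have h4 : #(P.erase e.minFac) = k' := by
            rw [card_erase_of_mem hm, ← hk, hk']
            rfl
          rw [← h4, ← card_powersetCard]
          refine card_le_card_of_injOn (fun P' => P'.erase e.minFac) ?_ ?_
          · intro P' hP'
            rw [mem_coe, mem_filter, mem_powersetCard] at hP'
            rw [mem_coe, mem_powersetCard]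
            refine ⟨erase_subset_erase _ hP'.1.1, ?_⟩
            rw [card_erase_of_mem hP'.2, hP'.1.2]
            rfl
          · intro P' hP' P'' hP'' h
            rw [mem_coe, mem_filter] at hP' hP''
            simp only at h
            rw [← insert_erase hP'.2, h, insert_erase hP''.2]
        · rw [filter_eq_empty_iff.2]
          · simp
          · intro P' hP' h
            rw [mem_powersetCard] at hP'
            exact hm (hP'.1 h)
      exact_mod_cast h3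
    refine (sum_le_sum h2).trans ?_
    rw [← mul_sum]
    exact mul_le_mul_of_nonneg_left (classical_sieve U hM hQ hU) (Nat.cast_nonneg _)
  -- the choice
  have hne : (powersetCard (r' + 1) P).Nonempty := by
    rw [powersetCard_nonempty]
    exact hrk
  by_contra hcon
  push Not at hcon
  have h1 : ∀ P' ∈ powersetCard (r' + 1) P, (#U : ℝ) ^ 2 / 16 <
      ((∏ p ∈ P', p : ℕ) : ℝ) * cong U (∏ p ∈ P', p) - (#U : ℝ) ^ 2 := by
    intro P' hP'
    rw [mem_powersetCard] at hP'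
    exact hcon P' hP'.1 hP'.2
  have h2 := sum_lt_sum_of_nonempty hne h1
  rw [sum_const, card_powersetCard, ← hk, nsmul_eq_mul] at h2
  have h3 := h2.trans_le havg
  have h4 : ((k.choose (r' + 1) : ℕ) : ℝ) * (r' + 1 : ℕ) = (k : ℝ) * (k'.choose r' : ℕ) := by
    rw [hk']
    have := Nat.add_one_mul_choose_eq k' r'
    exact_mod_cast this.symm
  have h5 : (448 : ℝ) * (r' + 1 : ℕ) * M ≤ k * #U := by exact_mod_cast hK
  have hr0 : (0 : ℝ) < ((r' + 1 : ℕ) : ℝ) := by positivity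
  have h6 : ((k.choose (r' + 1) : ℕ) : ℝ) * ((#U : ℝ) ^ 2 / 16) * (r' + 1 : ℕ) <
      (k'.choose r' : ℝ) * (28 * M * #U) * (r' + 1 : ℕ) := mul_lt_mul_of_pos_right h3 hr0
  have h7 : ((k.choose (r' + 1) : ℕ) : ℝ) * ((#U : ℝ) ^ 2 / 16) * (r' + 1 : ℕ) =
      (k'.choose r' : ℝ) * #U / 16 * (k * #U) := by
    calc ((k.choose (r' + 1) : ℕ) : ℝ) * ((#U : ℝ) ^ 2 / 16) * (r' + 1 : ℕ)
        = (((k.choose (r' + 1) : ℕ) : ℝ) * (r' + 1 : ℕ)) * ((#U : ℝ) ^ 2 / 16) := by ring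
      _ = _ := by rw [h4]; ring
  have h8 : (k'.choose r' : ℝ) * (28 * M * #U) * (r' + 1 : ℕ) =
      (k'.choose r' : ℝ) * #U / 16 * (448 * (r' + 1 : ℕ) * M) := by ring
  rw [h7, h8] at h6
  have h9 : (0 : ℝ) ≤ (k'.choose r' : ℝ) * #U / 16 := by positivity
  exact absurd h6 (not_lt.2 (mul_le_mul_of_nonneg_left h5 h9))

end Pool.Agent.Helper79.SQ
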