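import Pool.Agent.Helper79.SQ.Real

/-!
Many representations in a set with a positive proportion of elements near the numbers `α u ^ 2`.
-/

set_option autoImplicit false

open Finset Filter

namespace Pool.Agent.Helper79.SQ

open Pool.Agent.Helper25.RC

/-- the passage from the elements near `α u ^ 2` to the numbers `u ^ 2` -/
theorem near_transfer_set (A : Set ℕ) {α h : ℝ} (hα : 0 < α) (hh : 0 ≤ h) : ∃ B : Set ℕ,
    (∀ x : ℕ, (#(below (A ∩ {n | ∃ u : ℕ, |(n : ℝ) - α * u ^ 2| ≤ h}) x) : ℝ) ≤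
      (2 * h + 1) * #(below (B ∩ {n | IsSquare n}) (⌊(x + h) / α⌋₊ + 1))) ∧
    ∀ m : ℕ, rep B m ≠ 0 → ∃ k : ℕ, |(k : ℝ) - α * m| ≤ 2 * h ∧
      (rep B m : ℝ) ≤ (4 * h + 1) * rep A k := by
  classical
  obtain ⟨S, hSd⟩ : ∃ S : Set ℕ, S = A ∩ {n | ∃ u : ℕ, |(n : ℝ) - α * u ^ 2| ≤ h} := ⟨_, rfl⟩
  rw [← hSd]
  have hS : ∀ n ∈ S, n ∈ A := by
    intro n hn
    rw [hSd] at hn
    exact hn.1
  have hS2 : ∀ n ∈ S, ∃ u : ℕ, |(n : ℝ) - α * u ^ 2| ≤ h := by
    intro n hn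
    rw [hSd] at hn
    exact hn.2
  choose! u hu using hS2
  have hsec : ∀ v ∈ u '' S, ∃ n ∈ S, u n = v := fun v hv => hv
  choose! ν hνS hν using hsec
  refine ⟨{b | ∃ v ∈ u '' S, v ^ 2 = b}, ?_, ?_⟩
  · intro x
    have hmaps : ∀ n ∈ below S x, (u n) ^ 2 ∈
        below ({b | ∃ v ∈ u '' S, v ^ 2 = b} ∩ {n | IsSquare n}) (⌊(x + h) / α⌋₊ + 1) := by
      intro n hn
      obtain ⟨h1, h2⟩ := mem_below.1 hn
      rw [mem_below]
      refine ⟨?_, ⟨u n, ⟨n, h2, rfl⟩, rfl⟩, ⟨u n, pow_two _⟩⟩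
      refine Nat.lt_succ_of_le (Nat.le_floor ?_)
      have h3 := abs_le.1 (hu n h2)
      have h4 : (n : ℝ) ≤ x := by exact_mod_cast h1.le
      rw [le_div_iff₀ hα]
      push_cast
      linarith [h3.1, mul_comm α ((u n : ℝ) ^ 2)]
    have h1 : #(below S x) = ∑ b ∈ below ({b | ∃ v ∈ u '' S, v ^ 2 = b} ∩ {n | IsSquare n})
        (⌊(x + h) / α⌋₊ + 1), #{n ∈ below S x | (u n) ^ 2 = b} :=
      card_eq_sum_card_fiberwise hmaps
    have h2 : (#(below S x) : ℝ) = ∑ b ∈ below ({b | ∃ v ∈ u '' S, v ^ 2 = b} ∩ {n | IsSquare n})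
        (⌊(x + h) / α⌋₊ + 1), (#{n ∈ below S x | (u n) ^ 2 = b} : ℝ) := by
      exact_mod_cast h1
    rw [h2, mul_comm]
    refine (sum_le_card_nsmul _ _ (2 * h + 1) ?_).trans (le_of_eq (nsmul_eq_mul _ _))
    intro b _
    refine card_near (y := α * b) hh ?_
    intro n hn
    rw [mem_filter] at hn
    have h3 := hu n (mem_below.1 hn.1).2
    rw [← hn.2]
    push_cast
    exact h3
  · intro m hm
    obtain ⟨P, hP⟩ : ∃ P : Finset (ℕ × ℕ), P = {p ∈ antidiagonal m |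
        p.1 ∈ {b | ∃ v ∈ u '' S, v ^ 2 = b} ∧ p.2 ∈ {b | ∃ v ∈ u '' S, v ^ 2 = b}} := ⟨_, rfl⟩
    have hrep : rep {b | ∃ v ∈ u '' S, v ^ 2 = b} m = #P := by
      rw [hP]
      unfold rep
      congr
    rw [hrep] at hm ⊢
    have hmem : ∀ p ∈ P, ∃ v w : ℕ, v ∈ u '' S ∧ w ∈ u '' S ∧ p = (v ^ 2, w ^ 2) ∧
        v ^ 2 + w ^ 2 = m := by
      intro p hp
      rw [hP, mem_filter, HasAntidiagonal.mem_antidiagonal] at hp
      obtain ⟨h1, ⟨v, hv, hv2⟩, ⟨w, hw, hw2⟩⟩ := hp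
      refine ⟨v, w, hv, hw, Prod.ext hv2.symm hw2.symm, ?_⟩
      rw [hv2, hw2, h1]
    obtain ⟨φ, hφ⟩ : ∃ φ : ℕ × ℕ → ℕ × ℕ,
        φ = fun p => (ν (Nat.sqrt p.1), ν (Nat.sqrt p.2)) := ⟨_, rfl⟩
    have hφv : ∀ v w : ℕ, φ (v ^ 2, w ^ 2) = (ν v, ν w) := by
      intro v w
      rw [hφ]
      simp only [Nat.sqrt_eq']
    obtain ⟨Q, hQ⟩ : ∃ Q : Finset ℕ, Q = P.image (fun p => (φ p).1 + (φ p).2) := ⟨_, rfl⟩
    have hPne : P.Nonempty := card_pos.1 (Nat.pos_of_ne_zero hm)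
    have hQne : Q.Nonempty := by rw [hQ]; exact hPne.image _
    obtain ⟨k, hkQ, hk⟩ := exists_max_image Q (fun k => #{p ∈ P | (φ p).1 + (φ p).2 = k}) hQne
    have hQmem : ∀ q ∈ Q, |(q : ℝ) - α * m| ≤ 2 * h := by
      intro q hq
      rw [hQ] at hq
      obtain ⟨p, hp, rfl⟩ := mem_image.1 hq
      obtain ⟨v, w, hv, hw, rfl, hvw⟩ := hmem p hp
      rw [hφv]
      have h2 := hu _ (hνS v hv)
      have h3 := hu _ (hνS w hw)
      rw [hν v hv] at h2
      rw [hν w hw] at h3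
      rw [← hvw]
      push_cast
      rw [abs_le] at h2 h3 ⊢
      constructor <;> nlinarith [h2.1, h2.2, h3.1, h3.2]
    have hQcard : (#Q : ℝ) ≤ 4 * h + 1 := by
      have h1 : (#Q : ℝ) ≤ 2 * (2 * h) + 1 := card_near (y := α * m) (by linarith) hQmem
      linarith
    refine ⟨k, hQmem k hkQ, ?_⟩
    have h1 : #P ≤ #Q * #{p ∈ P | (φ p).1 + (φ p).2 = k} := by
      rw [card_eq_sum_card_image (fun p => (φ p).1 + (φ p).2) P, ← hQ, ← smul_eq_mul]
      exact sum_le_card_nsmul _ _ _ fun k' hk' => hk k' hk'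
    have h2 : #{p ∈ P | (φ p).1 + (φ p).2 = k} ≤ rep A k := by
      unfold rep
      refine card_le_card_of_injOn φ ?_ ?_
      · intro p hp
        rw [mem_coe, mem_filter] at hp
        obtain ⟨v, w, hv, hw, rfl, hvw⟩ := hmem p hp.1
        rw [mem_coe, mem_filter, HasAntidiagonal.mem_antidiagonal]
        refine ⟨hp.2, ?_⟩
        rw [hφv]
        exact ⟨hS _ (hνS v hv), hS _ (hνS w hw)⟩
      · intro p hp q hq hpq
        rw [mem_coe, mem_filter] at hp hq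
        obtain ⟨v, w, hv, hw, rfl, hvw⟩ := hmem p hp.1
        obtain ⟨v', w', hv', hw', rfl, hvw'⟩ := hmem q hq.1
        rw [hφv, hφv, Prod.mk.injEq] at hpq
        have h3 : v = v' := by rw [← hν v hv, ← hν v' hv', hpq.1]
        have h4 : w = w' := by rw [← hν w hw, ← hν w' hw', hpq.2]
        rw [h3, h4]
    have h3 : (#P : ℝ) ≤ #Q * #{p ∈ P | (φ p).1 + (φ p).2 = k} := by exact_mod_cast h1
    have h4 : (#{p ∈ P | (φ p).1 + (φ p).2 = k} : ℝ) ≤ rep A k := by exact_mod_cast h2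
    calc (#P : ℝ) ≤ #Q * #{p ∈ P | (φ p).1 + (φ p).2 = k} := h3
      _ ≤ (4 * h + 1) * rep A k := by gcongr

/-- A set with a positive proportion of elements near the numbers `α u ^ 2`. -/
theorem many_near : ∃ c : ℝ, 0 < c ∧ ∀ (α h : ℝ) (A : Set ℕ), 0 < α →
    ¬ Null (A ∩ {n | ∃ u : ℕ, |(n : ℝ) - α * u ^ 2| ≤ h}) → ∃ᶠ n : ℕ in atTop,
      Real.exp (c * (Real.log n / Real.log (Real.log n))) ≤ rep A n := by
  obtain ⟨C, hC⟩ := Pool.Agent.Helper25.SQ.exists_ld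
  obtain ⟨c0, hc0, h0⟩ := Pool.Agent.Helper25.SQ.many hC
  refine ⟨c0 / 2, by positivity, fun α h A hα hA => ?_⟩
  have hh : 0 ≤ h := by
    by_contra hcon
    push Not at hcon
    refine hA fun ε hε => Eventually.of_forall fun x => ?_
    have : below (A ∩ {n | ∃ u : ℕ, |(n : ℝ) - α * u ^ 2| ≤ h}) x = ∅ := by
      rw [eq_empty_iff_forall_notMem]
      intro n hn
      obtain ⟨_, _, u, hu⟩ := mem_below.1 hn
      exact absurd ((abs_nonneg _).trans hu) (not_le.2 hcon)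
    rw [this, card_empty, Nat.cast_zero]
    positivity
  obtain ⟨B, hB1, hB2⟩ := near_transfer_set A hα hh
  obtain ⟨K, hK⟩ : ∃ K : ℕ, K = ⌈(1 + h) / α⌉₊ + 1 := ⟨_, rfl⟩
  have hK0 : 0 < K := by omega
  have hB : ¬ Null (B ∩ {n | IsSquare n}) := by
    intro hnull
    refine hA fun ε hε => ?_
    have hKr : (0 : ℝ) < √(K : ℝ) := Real.sqrt_pos.2 (by exact_mod_cast hK0)
    have h1 := hnull (ε / ((2 * h + 1) * √(K : ℝ))) (by positivity)
    have ht : Tendsto (fun x : ℕ => K * x) atTop atTop :=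
      tendsto_atTop_mono (fun x => Nat.le_mul_of_pos_left x hK0) tendsto_id
    filter_upwards [ht.eventually h1, eventually_ge_atTop 1] with x hx hx1
    have hx1' : (1 : ℝ) ≤ x := by exact_mod_cast hx1
    have h2 : ⌊(x + h) / α⌋₊ + 1 ≤ K * x := by
      have h3 : ((⌊(x + h) / α⌋₊ : ℕ) : ℝ) ≤ (x + h) / α := Nat.floor_le (by positivity)
      have h4 : ((x : ℝ) + h) / α ≤ (1 + h) / α * x := by
        rw [div_mul_eq_mul_div]
        gcongr
        nlinarith
      have h5 : (1 + h) / α ≤ ((⌈(1 + h) / α⌉₊ : ℕ) : ℝ) := Nat.le_ceil _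
      have h6 : ((⌊(x + h) / α⌋₊ + 1 : ℕ) : ℝ) ≤ ((K * x : ℕ) : ℝ) := by
        rw [hK]
        push_cast
        nlinarith
      exact_mod_cast h6
    have h7 : #(below (B ∩ {n | IsSquare n}) (⌊(x + h) / α⌋₊ + 1)) ≤
        #(below (B ∩ {n | IsSquare n}) (K * x)) := by
      refine card_le_card fun n hn => ?_
      obtain ⟨h8, h9⟩ := mem_below.1 hn
      exact mem_below.2 ⟨by omega, h9⟩
    have h8 : (#(below (B ∩ {n | IsSquare n}) (⌊(x + h) / α⌋₊ + 1)) : ℝ) ≤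
        #(below (B ∩ {n | IsSquare n}) (K * x)) := by exact_mod_cast h7
    calc (#(below (A ∩ {n | ∃ u : ℕ, |(n : ℝ) - α * u ^ 2| ≤ h}) x) : ℝ)
        ≤ (2 * h + 1) * #(below (B ∩ {n | IsSquare n}) (⌊(x + h) / α⌋₊ + 1)) := hB1 x
      _ ≤ (2 * h + 1) * (ε / ((2 * h + 1) * √(K : ℝ)) * √((K * x : ℕ) : ℝ)) := by
          gcongr
          exact h8.trans hx
      _ = ε * √(x : ℝ) := by
          push_cast
          rw [Real.sqrt_mul (Nat.cast_nonneg _)]
          field_simp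
  have h1 := h0 B hB
  rw [Filter.frequently_atTop]
  intro N0
  obtain ⟨D, hD⟩ : ∃ D : ℝ, D = max 1 (Real.log (α + 2 * h)) := ⟨_, rfl⟩
  have hD1 : 1 ≤ D := by rw [hD]; exact le_max_left _ _
  have hD2 : Real.log (α + 2 * h) ≤ D := by rw [hD]; exact le_max_right _ _
  have ht : Tendsto (fun m : ℕ => Real.log (m : ℝ)) atTop atTop :=
    Real.tendsto_log_atTop.comp tendsto_natCast_atTop_atTop
  have htt : Tendsto (fun m : ℕ => Real.log (Real.log (m : ℝ))) atTop atTop :=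
    Real.tendsto_log_atTop.comp ht
  obtain ⟨M, hM⟩ : ∃ M : ℝ, M = max 1 (2 / c0 * (c0 / 2 + Real.log (4 * h + 1))) := ⟨_, rfl⟩
  have hM1 : 1 ≤ M := by rw [hM]; exact le_max_left _ _
  have hM2 : 2 / c0 * (c0 / 2 + Real.log (4 * h + 1)) ≤ M := by rw [hM]; exact le_max_right _ _
  have hM0 : 0 < M := by linarith
  have ho := ht.eventually (Real.isLittleO_log_id_atTop.def (show (0 : ℝ) < 1 / M by positivity))
  obtain ⟨m0, hm0⟩ := eventually_atTop.1 (ho.and ((htt.eventually_ge_atTop D).and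
    ((ht.eventually_ge_atTop 3).and (tendsto_natCast_atTop_atTop.eventually_ge_atTop
      (((N0 : ℝ) + 16 + 2 * h) / α)))))
  obtain ⟨m, hmm, hrep⟩ := h1 m0
  obtain ⟨h2, h3, h4, h5⟩ := hm0 m hmm
  obtain ⟨L, hL⟩ : ∃ L, L = Real.log (m : ℝ) := ⟨_, rfl⟩
  rw [← hL] at h2 h3 h4 hrep
  obtain ⟨t, htd⟩ : ∃ t, t = Real.log L := ⟨_, rfl⟩
  rw [← htd] at h2 h3 hrep
  have ht1 : 1 ≤ t := hD1.trans h3
  have ht0 : 0 < t := by linarith
  have hL0 : 0 < L := by linarith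
  have hMt : M * t ≤ L := by
    rw [Real.norm_of_nonneg ht0.le, id, Real.norm_of_nonneg hL0.le, div_mul_eq_mul_div,
      one_mul, le_div_iff₀ hM0] at h2
    linarith
  have hm1 : (1 : ℝ) ≤ m := by
    by_contra hcon
    push Not at hcon
    have h6 : L ≤ 0 := by
      rw [hL]
      exact Real.log_nonpos (Nat.cast_nonneg _) hcon.le
    linarith
  have hz : rep B m ≠ 0 := by
    intro hz
    rw [hz, Nat.cast_zero] at hrep
    exact absurd (Real.exp_pos _) (not_lt.2 hrep)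
  obtain ⟨k, hk1, hk2⟩ := hB2 m hz
  rw [abs_le] at hk1
  rw [div_le_iff₀ hα] at h5
  have hk3 : (N0 : ℝ) + 16 ≤ k := by linarith [hk1.1, mul_comm α (m : ℝ)]
  refine ⟨k, ?_, ?_⟩
  · have : (N0 : ℝ) ≤ k := by linarith
    exact_mod_cast this
  have hk16 : (16 : ℝ) ≤ k := by
    have : (0 : ℝ) ≤ N0 := Nat.cast_nonneg _
    linarith
  have he := Real.exp_one_lt_d9
  have hlog2 := Real.log_two_gt_d9
  have hlogk : Real.exp 1 ≤ Real.log k := by
    have h6 : Real.log 16 ≤ Real.log k := Real.log_le_log (by norm_num) hk16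
    have h7 : Real.log 16 = 4 * Real.log 2 := by
      rw [show (16 : ℝ) = 2 ^ 4 by norm_num, Real.log_pow]
      norm_num
    linarith
  have hlogk2 : Real.log k ≤ L + D := by
    have h6 : (k : ℝ) ≤ (α + 2 * h) * m := by nlinarith [hk1.2]
    have h7 : Real.log k ≤ Real.log ((α + 2 * h) * m) := Real.log_le_log (by linarith) h6
    rw [Real.log_mul (by positivity) (by positivity)] at h7
    rw [← hL] at h7
    linarith
  have hmono : Real.log (L + D) / (L + D) ≤ Real.log (Real.log k) / Real.log k :=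
    Real.log_div_self_antitoneOn hlogk
      (show Real.exp 1 ≤ L + D by linarith) hlogk2
  have hll : 0 < Real.log (Real.log k) := Real.log_pos (by
    have := Real.add_one_le_exp (1 : ℝ)
    linarith)
  have hLD : t ≤ Real.log (L + D) := by
    rw [htd]
    exact Real.log_le_log hL0 (by linarith)
  have hratio : Real.log k / Real.log (Real.log k) ≤ (L + D) / t := by
    have hk0 : 0 < Real.log k := lt_of_lt_of_le (Real.exp_pos 1) hlogk
    rw [div_le_div_iff₀ (by linarith) hk0] at hmono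
    rw [div_le_div_iff₀ hll ht0]
    have h8 : Real.log k * t ≤ Real.log k * Real.log (L + D) := by gcongr
    linarith
  have hratio2 : (L + D) / t ≤ L / t + 1 := by
    rw [add_div]
    have : D / t ≤ 1 := by
      rw [div_le_one ht0]
      exact h3
    linarith
  have hLt : M ≤ L / t := by rwa [le_div_iff₀ ht0]
  have h41 : 0 < 4 * h + 1 := by linarith
  have h9 : c0 / 2 * (Real.log k / Real.log (Real.log k)) + Real.log (4 * h + 1) ≤
      c0 * (L / t) := by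
    have h10 : c0 / 2 * (Real.log k / Real.log (Real.log k)) ≤ c0 / 2 * (L / t + 1) := by
      gcongr
      exact hratio.trans hratio2
    have h11 : c0 / 2 + Real.log (4 * h + 1) ≤ c0 / 2 * (L / t) := by
      have h12 : c0 / 2 * (2 / c0 * (c0 / 2 + Real.log (4 * h + 1))) ≤ c0 / 2 * (L / t) := by
        gcongr
        exact hM2.trans hLt
      have h13 : c0 / 2 * (2 / c0 * (c0 / 2 + Real.log (4 * h + 1))) =
          c0 / 2 + Real.log (4 * h + 1) := by
        field_simp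
      linarith
    linarith
  have h10 : Real.exp (c0 / 2 * (Real.log k / Real.log (Real.log k))) * (4 * h + 1) ≤
      rep A k * (4 * h + 1) := by
    calc Real.exp (c0 / 2 * (Real.log k / Real.log (Real.log k))) * (4 * h + 1)
        = Real.exp (c0 / 2 * (Real.log k / Real.log (Real.log k)) + Real.log (4 * h + 1)) := by
          rw [Real.exp_add, Real.exp_log h41]
      _ ≤ Real.exp (c0 * (L / t)) := Real.exp_le_exp.2 h9
      _ ≤ (rep B m : ℝ) := hrep
      _ ≤ (4 * h + 1) * rep A k := hk2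
      _ = (rep A k : ℝ) * (4 * h + 1) := mul_comm _ _
  exact le_of_mul_le_mul_right h10 h41

end Pool.Agent.Helper79.SQ
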