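import Pool.Agent.Helper25.SQ.Final2

/-!
Elements near the numbers `α u ^ 2`, `α` real, in a set with few representations.
-/

set_option autoImplicit false

open Finset Filter

namespace Pool.Agent.Helper79.SQ

open Pool.Agent.Helper25.RC

theorem card_near {F : Finset ℕ} {y h : ℝ} (hh : 0 ≤ h) (hF : ∀ n ∈ F, |(n : ℝ) - y| ≤ h) :
    (#F : ℝ) ≤ 2 * h + 1 := by
  rcases F.eq_empty_or_nonempty with rfl | hne
  · simp only [card_empty, Nat.cast_zero]
    linarith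
  · have h1 : F ⊆ Icc (F.min' hne) (F.max' hne) := fun n hn =>
      mem_Icc.2 ⟨F.min'_le n hn, F.le_max' n hn⟩
    have h2 := card_le_card h1
    rw [Nat.card_Icc] at h2
    have h3 := abs_le.1 (hF _ (F.min'_mem hne))
    have h4 := abs_le.1 (hF _ (F.max'_mem hne))
    have h5 : F.min' hne ≤ F.max' hne := F.min'_le _ (F.max'_mem hne)
    have h6 : ((F.max' hne + 1 - F.min' hne : ℕ) : ℝ) = F.max' hne + 1 - F.min' hne := by
      rw [Nat.cast_sub (by omega)]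
      push_cast
      ring
    have h7 : (#F : ℝ) ≤ ((F.max' hne + 1 - F.min' hne : ℕ) : ℝ) := by exact_mod_cast h2
    rw [h6] at h7
    linarith

/-- the passage from the elements near `α u ^ 2` to the numbers `u ^ 2` -/
theorem near_transfer {A : Set ℕ} {x : ℕ} {α h : ℝ} (hα : 0 < α) (hh : 0 ≤ h) (hhx : h ≤ x) :
    ∃ U : Finset ℕ,
      (#(below (A ∩ {n | ∃ u : ℕ, |(n : ℝ) - α * u ^ 2| ≤ h}) x) : ℝ) ≤ #U * (2 * h + 1) ∧
      (∀ u ∈ U, ((u ^ 2 : ℕ) : ℝ) ≤ 2 * x / α) ∧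
      ∀ m : ℕ, rep ((U.image fun u => u ^ 2 : Finset ℕ) : Set ℕ) m ≠ 0 → ∃ k < 2 * x,
        (rep ((U.image fun u => u ^ 2 : Finset ℕ) : Set ℕ) m : ℝ) ≤ (4 * h + 1) * rep A k := by
  classical
  obtain ⟨S, hSd⟩ : ∃ S, S = below (A ∩ {n | ∃ u : ℕ, |(n : ℝ) - α * u ^ 2| ≤ h}) x := ⟨_, rfl⟩
  rw [← hSd]
  have hS : ∀ n ∈ S, n < x ∧ n ∈ A := by
    intro n hn
    rw [hSd] at hn
    obtain ⟨h1, h2, _⟩ := mem_below.1 hn
    exact ⟨h1, h2⟩
  have hS2 : ∀ n ∈ S, ∃ u : ℕ, |(n : ℝ) - α * u ^ 2| ≤ h := by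
    intro n hn
    rw [hSd] at hn
    exact (mem_below.1 hn).2.2
  choose! u hu using hS2
  have hsec : ∀ v ∈ S.image u, ∃ n ∈ S, u n = v := fun v hv => mem_image.1 hv
  choose! ν hνS hν using hsec
  refine ⟨S.image u, ?_, ?_, ?_⟩
  · have h1 : (#S : ℝ) = ∑ v ∈ S.image u, (#{n ∈ S | u n = v} : ℝ) := by
      rw [card_eq_sum_card_image u S]
      push_cast
      rfl
    rw [h1]
    refine (sum_le_card_nsmul _ _ (2 * h + 1) ?_).trans (le_of_eq (nsmul_eq_mul _ _))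
    intro v _
    refine card_near (y := α * v ^ 2) hh ?_
    intro n hn
    rw [mem_filter] at hn
    have := hu n hn.1
    rwa [hn.2] at this
  · intro v hv
    obtain ⟨n, hn, rfl⟩ := mem_image.1 hv
    have h1 := abs_le.1 (hu n hn)
    have h2 : (n : ℝ) ≤ x := by exact_mod_cast (hS n hn).1.le
    rw [le_div_iff₀ hα]
    push_cast
    linarith [h1.1, mul_comm α ((u n : ℝ) ^ 2)]
  · intro m hm
    obtain ⟨U, hU⟩ : ∃ U, U = S.image u := ⟨_, rfl⟩
    rw [← hU] at hm hνS hν ⊢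
    obtain ⟨P, hP⟩ : ∃ P : Finset (ℕ × ℕ), P = {p ∈ antidiagonal m |
        p.1 ∈ ((U.image fun u => u ^ 2 : Finset ℕ) : Set ℕ) ∧
        p.2 ∈ ((U.image fun u => u ^ 2 : Finset ℕ) : Set ℕ)} := ⟨_, rfl⟩
    have hrep : rep ((U.image fun u => u ^ 2 : Finset ℕ) : Set ℕ) m = #P := by
      rw [hP]
      unfold rep
      congr
    rw [hrep] at hm ⊢
    have hmem : ∀ p ∈ P, ∃ v w : ℕ, v ∈ U ∧ w ∈ U ∧ p = (v ^ 2, w ^ 2) ∧ v ^ 2 + w ^ 2 = m := by
      intro p hp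
      rw [hP, mem_filter, HasAntidiagonal.mem_antidiagonal, mem_coe, mem_coe] at hp
      obtain ⟨h1, h2, h3⟩ := hp
      obtain ⟨v, hv, hv2⟩ := mem_image.1 h2
      obtain ⟨w, hw, hw2⟩ := mem_image.1 h3
      refine ⟨v, w, hv, hw, Prod.ext hv2.symm hw2.symm, ?_⟩
      rw [hv2, hw2, h1]
    obtain ⟨φ, hφ⟩ : ∃ φ : ℕ × ℕ → ℕ × ℕ,
        φ = fun p => (ν (Nat.sqrt p.1), ν (Nat.sqrt p.2)) := ⟨_, rfl⟩
    have hφv : ∀ v w : ℕ, φ (v ^ 2, w ^ 2) = (ν v, ν w) := by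
      intro v w
      rw [hφ]
      simp only [Nat.sqrt_eq']
    obtain ⟨Q, hQ⟩ : ∃ Q : Finset ℕ, Q = P.image (fun p => (φ p).1 + (φ p).2) := ⟨_, rfl⟩
    have hPne : P.Nonempty := card_pos.1 (Nat.pos_of_ne_zero hm)
    have hQne : Q.Nonempty := by rw [hQ]; exact hPne.image _
    obtain ⟨k, hkQ, hk⟩ := exists_max_image Q (fun k => #{p ∈ P | (φ p).1 + (φ p).2 = k}) hQne
    have hQcard : (#Q : ℝ) ≤ 4 * h + 1 := by
      have h1 : (#Q : ℝ) ≤ 2 * (2 * h) + 1 := by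
        refine card_near (y := α * m) (by linarith) ?_
        intro q hq
        rw [hQ] at hq
        obtain ⟨p, hp, rfl⟩ := mem_image.1 hq
        obtain ⟨v, w, hv, hw, rfl, hvw⟩ := hmem p hp
        rw [hφv]
        have h2 := hu _ (hνS v hv)
        have h3 := hu _ (hνS w hw)
        rw [hν v hv] at h2
        rw [hν w hw] at h3
        rw [← hvw]
        push_cast
        rw [abs_le] at h2 h3 ⊢
        constructor <;> nlinarith [h2.1, h2.2, h3.1, h3.2]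
      linarith
    refine ⟨k, ?_, ?_⟩
    · rw [hQ] at hkQ
      obtain ⟨p, hp, rfl⟩ := mem_image.1 hkQ
      obtain ⟨v, w, hv, hw, rfl, hvw⟩ := hmem p hp
      rw [hφv]
      have h2 := (hS _ (hνS v hv)).1
      have h3 := (hS _ (hνS w hw)).1
      show ν v + ν w < 2 * x
      omega
    · have h1 : #P ≤ #Q * #{p ∈ P | (φ p).1 + (φ p).2 = k} := by
        rw [card_eq_sum_card_image (fun p => (φ p).1 + (φ p).2) P, ← hQ, ← smul_eq_mul]
        exact sum_le_card_nsmul _ _ _ fun k' hk' => hk k' hk'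
      have h2 : #{p ∈ P | (φ p).1 + (φ p).2 = k} ≤ rep A k := by
        unfold rep
        refine card_le_card_of_injOn φ ?_ ?_
        · intro p hp
          rw [mem_coe, mem_filter] at hp
          obtain ⟨v, w, hv, hw, rfl, hvw⟩ := hmem p hp.1
          rw [mem_coe, mem_filter, HasAntidiagonal.mem_antidiagonal]
          refine ⟨hp.2, ?_⟩
          rw [hφv]
          exact ⟨(hS _ (hνS v hv)).2, (hS _ (hνS w hw)).2⟩
        · intro p hp q hq hpq
          rw [mem_coe, mem_filter] at hp hq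
          obtain ⟨v, w, hv, hw, rfl, hvw⟩ := hmem p hp.1
          obtain ⟨v', w', hv', hw', rfl, hvw'⟩ := hmem q hq.1
          rw [hφv, hφv, Prod.mk.injEq] at hpq
          have h3 : v = v' := by rw [← hν v hv, ← hν v' hv', hpq.1]
          have h4 : w = w' := by rw [← hν w hw, ← hν w' hw', hpq.2]
          rw [h3, h4]
      have h3 : (#P : ℝ) ≤ #Q * #{p ∈ P | (φ p).1 + (φ p).2 = k} := by exact_mod_cast h1
      have h4 : (#{p ∈ P | (φ p).1 + (φ p).2 = k} : ℝ) ≤ rep A k := by exact_mod_cast h2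
      calc (#P : ℝ) ≤ #Q * #{p ∈ P | (φ p).1 + (φ p).2 = k} := h3
        _ ≤ (4 * h + 1) * rep A k := by gcongr

/-- every set: the elements near the numbers `α u ^ 2` -/
theorem near_all : ∃ c : ℝ, 0 < c ∧ ∀ α : ℝ, 0 < α → ∃ c' : ℝ, 0 < c' ∧
    ∀ (A : Set ℕ) (x : ℕ), 2 ≤ x → ∃ n : ℕ, n < 2 * x ∧
      c' * (#(below (A ∩ {n | ∃ u : ℕ, |(n : ℝ) - α * u ^ 2| ≤
        Real.exp (c * √(Real.log x))}) x) : ℝ) ^ 2 / x * Real.exp (c * √(Real.log x)) ≤
          rep A n := by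
  obtain ⟨C, hC⟩ := Pool.Agent.Helper25.SQ.exists_ld
  obtain ⟨c1, hc1, h1⟩ := Pool.Agent.Helper25.SQ.large hC
  obtain ⟨c0, hc0⟩ : ∃ c0 : ℝ, c0 = min c1 2 := ⟨_, rfl⟩
  have hc00 : 0 < c0 := by rw [hc0]; positivity
  have hc01 : c0 ≤ c1 := by rw [hc0]; exact min_le_left _ _
  have hc02 : c0 ≤ 2 := by rw [hc0]; exact min_le_right _ _
  refine ⟨c0 / 4, by positivity, fun α hα => ?_⟩
  refine ⟨c0 / (90 * (1 / α + 1)), by positivity, fun A x hx => ?_⟩
  have hx2 : (2 : ℝ) ≤ x := by exact_mod_cast hx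
  have hx0 : (0 : ℝ) < x := by linarith
  obtain ⟨s, hs⟩ : ∃ s, s = √(Real.log x) := ⟨_, rfl⟩
  have hs0 : 0 ≤ s := by rw [hs]; exact Real.sqrt_nonneg _
  have hss : s ^ 2 = Real.log x := by rw [hs]; exact Real.sq_sqrt (Real.log_natCast_nonneg x)
  rw [← hs]
  obtain ⟨h, hh⟩ : ∃ h, h = Real.exp (c0 / 4 * s) := ⟨_, rfl⟩
  have hh1 : 1 ≤ h := by rw [hh]; exact Real.one_le_exp (by positivity)
  have hs1 : 1 / 2 ≤ s := by
    have h2 : Real.log 2 ≤ Real.log x := Real.log_le_log (by norm_num) hx2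
    have h3 := Real.log_two_gt_d9
    nlinarith
  have hhx : h ≤ x := by
    rw [hh]
    calc Real.exp (c0 / 4 * s) ≤ Real.exp (s ^ 2) := by
          refine Real.exp_le_exp.2 ?_
          nlinarith
      _ = x := by rw [hss, Real.exp_log hx0]
  rw [← hh]
  obtain ⟨U, hU1, hU2, hU3⟩ := near_transfer (A := A) (x := x) hα (by linarith : 0 ≤ h) hhx
  obtain ⟨N, hN⟩ : ∃ N : ℝ,
    N = #(below (A ∩ {n | ∃ u : ℕ, |(n : ℝ) - α * u ^ 2| ≤ h}) x) := ⟨_, rfl⟩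
  have hN0 : 0 ≤ N := by rw [hN]; positivity
  rw [← hN] at hU1 ⊢
  obtain ⟨X, hX⟩ : ∃ X : ℕ, X = ⌊2 * x / α⌋₊ + x + 1 := ⟨_, rfl⟩
  have hxX : x ≤ X := by omega
  have hX1 : (X : ℝ) ≤ 2 * (1 / α + 1) * x := by
    have h2 : ((⌊2 * (x : ℝ) / α⌋₊ : ℕ) : ℝ) ≤ 2 * x / α := Nat.floor_le (by positivity)
    rw [hX]
    push_cast
    have h3 : 2 * (1 / α + 1) * (x : ℝ) = 2 * x / α + 2 * x := by
      field_simp
    rw [h3]
    linarith
  have hbelow : below (((U.image fun u => u ^ 2 : Finset ℕ) : Set ℕ) ∩ {n | IsSquare n}) X =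
      U.image fun u => u ^ 2 := by
    ext n
    rw [mem_below]
    constructor
    · rintro ⟨_, h2, _⟩
      exact h2
    · intro h2
      obtain ⟨v, hv, rfl⟩ := mem_image.1 h2
      refine ⟨?_, h2, ⟨v, pow_two v⟩⟩
      have h3 : v ^ 2 ≤ ⌊2 * (x : ℝ) / α⌋₊ := Nat.le_floor (hU2 v hv)
      rw [hX]
      show v ^ 2 < _
      omega
  have hcard : #(U.image fun u => u ^ 2) = #U :=
    card_image_of_injOn fun v _ w _ hvw => Nat.pow_left_injective (by norm_num) hvw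
  obtain ⟨m, _, hm⟩ := h1 ((U.image fun u => u ^ 2 : Finset ℕ) : Set ℕ) X (by omega)
  rw [hbelow, hcard] at hm
  by_cases hz : rep ((U.image fun u => u ^ 2 : Finset ℕ) : Set ℕ) m = 0
  · refine ⟨0, by omega, ?_⟩
    rw [hz] at hm
    have h2 : (#U : ℝ) = 0 := by
      by_contra hcon
      have h3 : 0 < (#U : ℝ) := lt_of_le_of_ne (Nat.cast_nonneg _) (Ne.symm hcon)
      have h4 : (0 : ℝ) < X := by
        have : 0 < X := by omega
        exact_mod_cast this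
      have h5 : 0 < c1 * ((#U : ℝ) ^ 2 / X) * Real.exp (c1 * √(Real.log X)) := by positivity
      push_cast at hm
      linarith
    rw [h2, zero_mul] at hU1
    have h3 : N = 0 := le_antisymm hU1 hN0
    rw [h3]
    have h4 : c0 / (90 * (1 / α + 1)) * (0 : ℝ) ^ 2 / x * h = 0 := by ring
    rw [h4]
    positivity
  · obtain ⟨k, hk, hk2⟩ := hU3 m hz
    refine ⟨k, hk, ?_⟩
    have hX0 : (0 : ℝ) < X := by
      have : (x : ℝ) ≤ X := by exact_mod_cast hxX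
      linarith
    have hsX : s ≤ √(Real.log X) := by
      rw [hs]
      refine Real.sqrt_le_sqrt (Real.log_le_log hx0 ?_)
      exact_mod_cast hxX
    have h4h : h ^ 4 = Real.exp (c0 * s) := by
      rw [hh, ← Real.exp_nat_mul]
      congr 1
      push_cast
      ring
    have h2 : c0 * ((#U : ℝ) ^ 2 / X) * h ^ 4 ≤ 5 * h * rep A k := by
      calc c0 * ((#U : ℝ) ^ 2 / X) * h ^ 4
          ≤ c1 * ((#U : ℝ) ^ 2 / X) * Real.exp (c1 * √(Real.log X)) := by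
            rw [h4h]
            have : Real.exp (c0 * s) ≤ Real.exp (c1 * √(Real.log X)) := by
              refine Real.exp_le_exp.2 ?_
              calc c0 * s ≤ c1 * s := by gcongr
                _ ≤ _ := by gcongr
            gcongr
        _ ≤ (rep ((U.image fun u => u ^ 2 : Finset ℕ) : Set ℕ) m : ℝ) := hm
        _ ≤ (4 * h + 1) * rep A k := hk2
        _ ≤ 5 * h * rep A k := by
            gcongr
            linarith
    have hNU : N ≤ 3 * h * #U := by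
      calc N ≤ #U * (2 * h + 1) := hU1
        _ ≤ #U * (3 * h) := by
            gcongr
            linarith
        _ = _ := by ring
    have h3 : N ^ 2 ≤ 9 * h ^ 2 * (#U : ℝ) ^ 2 := by
      calc N ^ 2 ≤ (3 * h * #U) ^ 2 := by gcongr
        _ = _ := by ring
    have h4 : c0 * (N ^ 2 / X) * h ≤ 45 * rep A k := by
      have h5 : c0 * (N ^ 2 / X) * h * h ^ 3 ≤ 45 * rep A k * h ^ 3 := by
        calc c0 * (N ^ 2 / X) * h * h ^ 3
            ≤ c0 * (9 * h ^ 2 * (#U : ℝ) ^ 2 / X) * h * h ^ 3 := by gcongr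
          _ = 9 * h ^ 2 * (c0 * ((#U : ℝ) ^ 2 / X) * h ^ 4) := by ring
          _ ≤ 9 * h ^ 2 * (5 * h * rep A k) := by gcongr
          _ = 45 * rep A k * h ^ 3 := by ring
      exact le_of_mul_le_mul_right h5 (by positivity)
    have h6 : N ^ 2 / (2 * (1 / α + 1) * x) ≤ N ^ 2 / X := by gcongr
    have h7 : c0 / (90 * (1 / α + 1)) * N ^ 2 / x * h =
        1 / 45 * (c0 * (N ^ 2 / (2 * (1 / α + 1) * x)) * h) := by
      have hβ : 0 < 1 / α + 1 := by positivity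
      generalize 1 / α + 1 = β at hβ
      have hβ' : β ≠ 0 := hβ.ne'
      have hx' : (x : ℝ) ≠ 0 := hx0.ne'
      field_simp
      ring
    rw [h7]
    have h8 : 1 / 45 * (c0 * (N ^ 2 / (2 * (1 / α + 1) * x)) * h) ≤
        1 / 45 * (c0 * (N ^ 2 / X) * h) := by gcongr
    linarith

/-- bounded representation function -/
theorem near_real : ∃ c : ℝ, 0 < c ∧ ∀ g α : ℝ, 0 < α → ∃ C : ℝ, ∀ A : Set ℕ,
    (∀ n : ℕ, (rep A n : ℝ) ≤ g) → ∀ x : ℕ, 2 ≤ x →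
      (#(below (A ∩ {n | ∃ u : ℕ, |(n : ℝ) - α * u ^ 2| ≤
        Real.exp (c * √(Real.log x))}) x) : ℝ) ≤ C * √x * Real.exp (-(c * √(Real.log x))) := by
  obtain ⟨c, hc, h⟩ := near_all
  refine ⟨c / 2, by positivity, fun g α hα => ?_⟩
  obtain ⟨c', hc', h'⟩ := h α hα
  refine ⟨√(max g 0 / c'), fun A hA x hx => ?_⟩
  obtain ⟨n, _, h2⟩ := h' A x hx
  have hx0 : (0 : ℝ) < x := by positivity
  obtain ⟨s, hs⟩ : ∃ s, s = √(Real.log x) := ⟨_, rfl⟩
  have hs0 : 0 ≤ s := by rw [hs]; exact Real.sqrt_nonneg _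
  rw [← hs] at h2 ⊢
  have hle : #(below (A ∩ {n | ∃ u : ℕ, |(n : ℝ) - α * u ^ 2| ≤ Real.exp (c / 2 * s)}) x) ≤
      #(below (A ∩ {n | ∃ u : ℕ, |(n : ℝ) - α * u ^ 2| ≤ Real.exp (c * s)}) x) := by
    refine card_le_card (below_mono ?_ x)
    rintro m ⟨hm, u, hu⟩
    refine ⟨hm, u, hu.trans (Real.exp_le_exp.2 ?_)⟩
    nlinarith
  have hle' : (#(below (A ∩ {n | ∃ u : ℕ, |(n : ℝ) - α * u ^ 2| ≤
      Real.exp (c / 2 * s)}) x) : ℝ) ≤
      #(below (A ∩ {n | ∃ u : ℕ, |(n : ℝ) - α * u ^ 2| ≤ Real.exp (c * s)}) x) := by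
    exact_mod_cast hle
  refine hle'.trans ?_
  obtain ⟨N, hN⟩ : ∃ N : ℝ,
    N = #(below (A ∩ {n | ∃ u : ℕ, |(n : ℝ) - α * u ^ 2| ≤ Real.exp (c * s)}) x) := ⟨_, rfl⟩
  have hN0 : 0 ≤ N := by rw [hN]; positivity
  rw [← hN] at h2 ⊢
  have h3 : c' * N ^ 2 / x * Real.exp (c * s) ≤ max g 0 :=
    h2.trans ((hA n).trans (le_max_left _ _))
  have hg : 0 ≤ max g 0 := le_max_right _ _
  have he : 0 < Real.exp (c * s) := Real.exp_pos _
  have h4 : N ^ 2 ≤ max g 0 / c' * x * Real.exp (-(c * s)) := by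
    rw [Real.exp_neg, ← div_eq_mul_inv, le_div_iff₀ he, div_mul_eq_mul_div, le_div_iff₀ hc']
    have h6 := mul_le_mul_of_nonneg_right h3 hx0.le
    calc N ^ 2 * Real.exp (c * s) * c' = c' * N ^ 2 / x * Real.exp (c * s) * x := by field_simp
      _ ≤ _ := h6
  have h5 : (√(max g 0 / c') * √(x : ℝ) * Real.exp (-(c / 2 * s))) ^ 2 =
      max g 0 / c' * x * Real.exp (-(c * s)) := by
    rw [mul_pow, mul_pow, Real.sq_sqrt (by positivity), Real.sq_sqrt hx0.le, ← Real.exp_nat_mul]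
    congr 2
    push_cast
    ring
  rw [← h5] at h4
  exact le_of_sq_le_sq h4 (by positivity)

end Pool.Agent.Helper79.SQ
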