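import Mathlib

/-!
Square roots of `-1` modulo a product of primes congruent to `1` modulo `4`, and pairs `(u, v)` with
`d ∣ u ^ 2 + v ^ 2` in a set which is equidistributed modulo `d`.
-/

set_option autoImplicit false

namespace Pool.Agent.Helper79.SQ

open Finset

/-- the square roots of `-1` -/
def rts (d : ℕ) : Set (ZMod d) := {i | i ^ 2 = -1}

theorem two_le_rts {p : ℕ} (hp : p.Prime) (h4 : p % 4 = 1) : 2 ≤ (rts p).ncard := by
  have : Fact p.Prime := ⟨hp⟩
  obtain ⟨i, hi⟩ := ZMod.exists_sq_eq_neg_one_iff.2 (show p % 4 ≠ 3 by omega)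
  have h2 : (2 : ZMod p) ≠ 0 := by
    intro h
    have h3 : ((2 : ℕ) : ZMod p) = 0 := by exact_mod_cast h
    rw [ZMod.natCast_eq_zero_iff] at h3
    have := Nat.le_of_dvd (by norm_num) h3
    have := hp.two_le
    interval_cases p
    omega
  have hi0 : i ≠ 0 := by
    intro h
    rw [h, mul_zero, neg_eq_zero] at hi
    exact one_ne_zero hi
  have hne : i ≠ -i := by
    intro h
    have h3 : 2 * i = 0 := by
      linear_combination h
    exact (mul_ne_zero h2 hi0) h3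
  have hsub : ({i, -i} : Set (ZMod p)) ⊆ rts p := by
    intro x hx
    rcases hx with rfl | hx
    · show x ^ 2 = -1
      rw [hi]; ring
    · rw [Set.mem_singleton_iff] at hx
      subst hx
      show (-i) ^ 2 = -1
      rw [hi]; ring
  rw [← Set.ncard_pair hne]
  exact Set.ncard_le_ncard hsub (Set.toFinite _)

/-- `2 ^ r` square roots of `-1` -/
theorem card_rts (P : Finset ℕ) (hP : ∀ p ∈ P, p.Prime ∧ p % 4 = 1) :
    2 ^ #P ≤ (rts (∏ p ∈ P, p)).ncard := by
  induction P using Finset.induction_on with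
  | empty =>
    rw [Finset.prod_empty, Finset.card_empty, pow_zero]
    have h1 : (0 : ZMod 1) ∈ rts 1 := by
      show (0 : ZMod 1) ^ 2 = -1
      exact Subsingleton.elim _ _
    exact (Set.ncard_pos (Set.toFinite _)).2 ⟨0, h1⟩
  | insert p P hp ih =>
    have hpp := hP p (mem_insert_self p P)
    have hP' : ∀ q ∈ P, q.Prime ∧ q % 4 = 1 := fun q hq => hP q (mem_insert_of_mem hq)
    have ih' := ih hP'
    rw [Finset.prod_insert hp, card_insert_of_notMem hp]
    set d : ℕ := ∏ p ∈ P, p with hd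
    have hd0 : d ≠ 0 := Finset.prod_ne_zero_iff.2 fun q hq => (hP' q hq).1.ne_zero
    have hcop : Nat.Coprime p d := Nat.Coprime.prod_right fun q hq =>
      (Nat.coprime_primes hpp.1 (hP' q hq).1).2 fun h => hp (h ▸ hq)
    have : NeZero (p * d) := ⟨mul_ne_zero hpp.1.ne_zero hd0⟩
    let e := ZMod.chineseRemainder hcop
    have h1 : e.symm '' (rts p ×ˢ rts d) ⊆ rts (p * d) := by
      rintro _ ⟨⟨x, y⟩, ⟨hx, hy⟩, rfl⟩
      show (e.symm (x, y)) ^ 2 = -1
      have hx' : x ^ 2 = -1 := hx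
      have hy' : y ^ 2 = -1 := hy
      rw [← map_pow, Prod.pow_mk, hx', hy']
      have h2 : ((-1 : ZMod p), (-1 : ZMod d)) = -1 := rfl
      rw [h2, map_neg, map_one]
    have h3 := Set.ncard_le_ncard h1 (Set.toFinite _)
    rw [Set.ncard_image_of_injective _ e.symm.injective, Set.ncard_prod] at h3
    refine le_trans ?_ h3
    rw [pow_succ, mul_comm]
    exact Nat.mul_le_mul (two_le_rts hpp.1 hpp.2) ih'

/-- the number of elements of `U` in a residue class -/
def zc (U : Finset ℕ) (d : ℕ) (a : ZMod d) : ℕ := #{u ∈ U | ((u : ℕ) : ZMod d) = a}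

theorem sum_zc (U : Finset ℕ) (d : ℕ) [NeZero d] : ∑ a : ZMod d, zc U d a = #U := by
  unfold zc
  exact (card_eq_sum_card_fiberwise (f := fun u : ℕ => (u : ZMod d)) (s := U) (t := univ)
    (fun _ _ => mem_univ _)).symm

theorem sum_units_le (d : ℕ) [NeZero d] (f : ZMod d → ℝ) (hf : ∀ a, 0 ≤ f a) :
    ∑ a : (ZMod d)ˣ, f a ≤ ∑ a, f a := by
  classical
  have h1 : ∑ a : (ZMod d)ˣ, f a = ∑ x ∈ univ.image (fun a : (ZMod d)ˣ => (a : ZMod d)), f x := by
    rw [Finset.sum_image fun a _ b _ h => Units.ext h]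
  rw [h1]
  exact sum_le_sum_of_subset_of_nonneg (subset_univ _) fun a _ _ => hf a

/-- the sum over the units of a function with sum zero -/
theorem sum_units_sq (d : ℕ) [NeZero d] (y : ZMod d → ℝ) (h0 : ∑ a, y a = 0) :
    (∑ a : (ZMod d)ˣ, y a) ^ 2 ≤ ((d : ℝ) - d.totient) * ∑ a, y a ^ 2 := by
  classical
  set S : Finset (ZMod d) := univ.image (fun a : (ZMod d)ˣ => (a : ZMod d)) with hS
  have h1 : ∑ a : (ZMod d)ˣ, y a = ∑ x ∈ S, y x := by
    rw [hS, Finset.sum_image fun a _ b _ h => Units.ext h]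
  have h2 : ∑ x ∈ S, y x + ∑ x ∈ Sᶜ, y x = 0 := by
    rw [sum_add_sum_compl, h0]
  have hcard : (#Sᶜ : ℝ) = (d : ℝ) - d.totient := by
    have h3 : #S = d.totient := by
      rw [hS, card_image_of_injective _ fun a b h => Units.ext h, card_univ,
        ZMod.card_units_eq_totient]
    have h4 : #S + #Sᶜ = d := by
      rw [card_add_card_compl, ZMod.card]
    have h5 : (#S : ℝ) + #Sᶜ = d := by exact_mod_cast h4
    rw [h3] at h5
    linarith
  have h3 : (∑ a : (ZMod d)ˣ, y a) = -∑ x ∈ Sᶜ, y x := by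
    rw [h1]
    linarith
  rw [h3, neg_sq, ← hcard]
  refine (sq_sum_le_card_mul_sum_sq).trans ?_
  refine mul_le_mul_of_nonneg_left ?_ (Nat.cast_nonneg _)
  exact sum_le_sum_of_subset_of_nonneg (subset_univ _) fun a _ _ => sq_nonneg _

/-- the pairs in a unit line -/
theorem pairs_line (U : Finset ℕ) (d : ℕ) [NeZero d]
    (hy : ∑ a : ZMod d, ((d : ℝ) * zc U d a - #U) ^ 2 ≤ d * (#U : ℝ) ^ 2 / 16)
    (hφ : 15 * d ≤ 16 * d.totient) (i : (ZMod d)ˣ) :
    3 / 4 * (#U : ℝ) ^ 2 / d ≤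
      ∑ a : (ZMod d)ˣ, (zc U d a : ℝ) * zc U d (i * a) := by
  classical
  have hd : (0 : ℝ) < d := Nat.cast_pos.2 (NeZero.pos d)
  set c : ℝ := (#U : ℝ) with hc
  have hc0 : 0 ≤ c := Nat.cast_nonneg _
  set y : ZMod d → ℝ := fun a => (d : ℝ) * zc U d a - c with hydef
  have hy' : ∑ a, y a ^ 2 ≤ d * c ^ 2 / 16 := hy
  have h0 : ∑ a, y a = 0 := by
    have h1 : (∑ a : ZMod d, (zc U d a : ℝ)) = c := by
      rw [hc, ← sum_zc U d]
      push_cast
      rfl
    simp only [hydef]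
    rw [sum_sub_distrib, ← mul_sum, h1, sum_const, card_univ, ZMod.card, nsmul_eq_mul, sub_self]
  have hφR : 15 * (d : ℝ) ≤ 16 * d.totient := by exact_mod_cast hφ
  -- sums over the units
  have hA : |∑ a : (ZMod d)ˣ, y a| ≤ d * c / 16 := by
    refine abs_le_of_sq_le_sq ?_ (by positivity)
    refine (sum_units_sq d y h0).trans ?_
    have h1 : (d : ℝ) - d.totient ≤ d / 16 := by linarith
    calc ((d : ℝ) - d.totient) * ∑ a, y a ^ 2 ≤ (d / 16) * (d * c ^ 2 / 16) :=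
          mul_le_mul h1 hy' (sum_nonneg fun a _ => sq_nonneg _) (by positivity)
      _ = (d * c / 16) ^ 2 := by ring
  have hperm : ∀ g : ZMod d → ℝ, ∑ a : (ZMod d)ˣ, g (i * a) = ∑ a : (ZMod d)ˣ, g a := by
    intro g
    have := Equiv.sum_comp (Equiv.mulLeft i) (fun a : (ZMod d)ˣ => g (a : ZMod d))
    simpa using this
  have hB : -(d * c ^ 2 / 16) ≤ ∑ a : (ZMod d)ˣ, y a * y (i * a) := by
    have h1 : ∀ a : (ZMod d)ˣ, -((y a ^ 2 + y (i * a) ^ 2) / 2) ≤ y a * y (i * a) := by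
      intro a
      nlinarith [sq_nonneg (y a + y (i * a))]
    have h2 : ∑ a : (ZMod d)ˣ, -((y a ^ 2 + y (i * a) ^ 2) / 2) ≤
        ∑ a : (ZMod d)ˣ, y a * y (i * a) := sum_le_sum fun a _ => h1 a
    refine le_trans ?_ h2
    rw [sum_neg_distrib, ← sum_div, sum_add_distrib, hperm fun x => y x ^ 2]
    have h3 := sum_units_le d (fun x => y x ^ 2) fun a => sq_nonneg _
    linarith
  have key : (d : ℝ) ^ 2 * ∑ a : (ZMod d)ˣ, (zc U d a : ℝ) * zc U d (i * a) =
      d.totient * c ^ 2 + 2 * c * (∑ a : (ZMod d)ˣ, y a) + ∑ a : (ZMod d)ˣ, y a * y (i * a) := by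
    have h1 : ∀ a : (ZMod d)ˣ, (d : ℝ) ^ 2 * ((zc U d a : ℝ) * zc U d (i * a)) =
        c ^ 2 + c * y a + c * y (i * a) + y a * y (i * a) := by
      intro a
      simp only [hydef]
      ring
    rw [mul_sum, sum_congr rfl fun a _ => h1 a, sum_add_distrib, sum_add_distrib,
      sum_add_distrib, ← mul_sum, ← mul_sum, hperm y, sum_const, card_univ,
      ZMod.card_units_eq_totient, nsmul_eq_mul]
    ring
  rw [div_le_iff₀ hd]
  have hA1 := (abs_le.1 hA).1
  have h5 : 3 / 4 * c ^ 2 * d ≤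
      (d : ℝ) ^ 2 * ∑ a : (ZMod d)ˣ, (zc U d a : ℝ) * zc U d (i * a) := by
    rw [key]
    have h6 : -(2 * c * (d * c / 16)) ≤ 2 * c * (∑ a : (ZMod d)ˣ, y a) := by
      nlinarith
    have h7 : 15 / 16 * (d * c ^ 2) ≤ d.totient * c ^ 2 := by
      nlinarith [sq_nonneg c]
    nlinarith
  have h8 : 0 < (d : ℝ) := hd
  have h9 : (3 / 4 * c ^ 2) * d ≤
      ((∑ a : (ZMod d)ˣ, (zc U d a : ℝ) * zc U d (i * a)) * d) * d := by
    refine le_trans (le_of_eq ?_) (h5.trans (le_of_eq ?_)) <;> ring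
  exact le_of_mul_le_mul_right h9 h8

end Pool.Agent.Helper79.SQ
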